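import Pool.Agent.P.MP_985e29_pr.Two.Base

open Finset

namespace Pool.Agent.P.MP_985e29_pr.Two

variable {V : Type} [DecidableEq V]

lemma Ex_lip' {T : Finset V} {s : ℝ} {q r : V → ℝ} (hq0 : ∀ u, 0 ≤ q u) (hq1 : ∀ u, q u ≤ 1)
    (hr0 : ∀ u, 0 ≤ r u) (hr1 : ∀ u, r u ≤ 1) (hr : ∀ u, |r u - q u| ≤ s) {f : Finset V → ℝ}
    (hf : ∀ C, f C = 0 ∨ f C = 1) : Ex T q f - s * T.card ≤ Ex T r f := by
  have h := Ex_telescope (S := T) (q := q) (q' := r) f (fun _ => -s) Subset.rfl
    (fun r' hr' v _ => by
      have h0 : ∀ u, 0 ≤ r' u := fun u => by rcases hr' u with h | ⟨-, h⟩ <;> simp [h, hq0, hr0]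
      have h1 : ∀ u, r' u ≤ 1 := fun u => by rcases hr' u with h | ⟨-, h⟩ <;> simp [h, hq1, hr1]
      have h2 : Ex T r' (fun C => f (C.erase v) - f (insert v C)) ≤ 1 := by
        refine (Ex_mono h0 h1 (g := fun _ => 1) fun C _ => ?_).trans (Ex_const _ _ _).le
        rcases hf (C.erase v) with h | h <;> rcases hf (insert v C) with h' | h' <;> simp [h, h']
      have h3 : -1 ≤ Ex T r' (fun C => f (C.erase v) - f (insert v C)) := by
        refine (Ex_const T r' _).ge.trans (Ex_mono h0 h1 (f := fun _ => -1) fun C _ => ?_)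
        rcases hf (C.erase v) with h | h <;> rcases hf (insert v C) with h' | h' <;> simp [h, h']
      have h4 := abs_le.mp (hr v)
      nlinarith)
  rw [Ex_congr_q (r := r) (fun v hv => by simp [hv])] at h
  simp only [sum_const, nsmul_eq_mul] at h
  linarith

variable {G : SimpleGraph V} [G.LocallyFinite] {χ : V → Prop} {o : V} {τ : V → G ≃g G}

/-- The finite-volume draw probability. -/
noncomputable def th (G : SimpleGraph V) [G.LocallyFinite] (χ : V → Prop) (o : V) (r : V → ℝ)
    (U : Finset V) : ℝ := Ex (supp G U) r (dind G χ U o)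

lemma St.Ex_dind (h : St G χ o τ) (a b : ℝ) {v : V} (hv : χ v) (U : Finset V) {S : Finset V}
    (hS : supp G (U.image (τ v)) ⊆ S) :
    Ex S (pq χ a b) (dind G χ (U.image (τ v)) v) = th G χ o (pq χ a b) U := by
  have h1 := dind_image (χ := χ) (τ v) (o := o) (fun w => by rw [h.cl v w hv, h.cl v o hv]) U
  rw [h.mv v hv] at h1
  rw [Ex_local _ (dind_local _ _) hS, supp_image, Ex_image' (τ v) (τ v).injective]
  simp only [h1, h.pq_inv a b hv]
  rfl

open Classical in
lemma St.key (h : St G χ o τ) {p b s e : ℝ} (hp0 : 0 < p) (hp1 : p < 1) (hb0 : 0 < b) (hb1 : b < 1)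
    (hs0 : 0 ≤ s) (hs1 : s ≤ p) (he : 0 ≤ e) {U U' W : Finset V} (ho : o ∈ U) (hU : U ⊆ U')
    (hW : ∀ v ∈ W, W ⊆ U'.image (τ v))
    (hε : (th G χ o (pq χ p b) U - th G χ o (pq χ p b) U') *
      Real.exp ((W.filter χ).card * (s ^ 2 / (p * (1 - p)))) ≤ e ^ 2) :
    (W.filter χ).card * (s * (th G χ o (pq χ p b) U - s * (supp G U).card - e)) ≤
      2 * (supp G W \ W).card := by
  set S : Finset V := supp G W ∪ W.biUnion (fun v => supp G (U'.image (τ v))) with hS
  have hWS : W.filter χ ⊆ S := (filter_subset _ _).trans ((subset_supp W).trans subset_union_left)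
  have hq0 : ∀ u, 0 < pq χ p b u := fun u => by unfold pq; split_ifs <;> assumption
  have hq1 : ∀ u, pq χ p b u < 1 := fun u => by unfold pq; split_ifs <;> assumption
  have key := Ex_telescope (S := S) (q := pq χ p b) (q' := fun _ => p - s) (FF G χ W)
    (fun _ => s * (th G χ o (pq χ p b) U - s * (supp G U).card - e)) hWS (fun r hr v hv => by
      obtain ⟨hv, hc⟩ := mem_filter.1 hv
      have h0 : ∀ u, 0 ≤ r u := fun u => by
        rcases hr u with e | ⟨-, e⟩ <;> rw [e] <;> linarith [hq0 u]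
      have h1 : ∀ u, r u ≤ 1 := fun u => by
        rcases hr u with e | ⟨-, e⟩ <;> rw [e] <;> linarith [hq1 u]
      have h2 : ∀ u, |r u - pq χ p b u| ≤ s := fun u => by
        rcases hr u with e | ⟨e1, e⟩
        · simpa [e] using hs0
        · rw [e, pq_pos _ _ (mem_filter.1 e1).2, sub_sub_cancel_left, abs_neg, abs_of_nonneg hs0]
      have hS' : supp G (U'.image (τ v)) ⊆ S :=
        (subset_biUnion_of_mem (fun v => supp G (U'.image (τ v))) hv).trans subset_union_right
      have hUU : U.image (τ v) ⊆ U'.image (τ v) := image_subset_image hU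
      have hS'' : supp G (U.image (τ v)) ⊆ S := (supp_mono hUU).trans hS'
      have hvU : v ∈ U.image (τ v) := mem_image.mpr ⟨o, ho, h.mv v hc⟩
      have t1 := h.Ex_dind p b hc U hS''
      have t1' := h.Ex_dind p b hc U Subset.rfl
      have t2 := h.Ex_dind p b hc U' hS'
      have a1 : th G χ o (pq χ p b) U - s * (supp G U).card ≤
          Ex S r (dind G χ (U.image (τ v)) v) := by
        rw [Ex_local _ (dind_local _ _) hS'', ← t1',
          ← card_image_of_injective (supp G U) (τ v).injective, ← supp_image]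
        exact Ex_lip' (fun u => (hq0 u).le) (fun u => (hq1 u).le) h0 h1 h2 (dind_cases _ _)
      have a2 : Ex S r (fun C => dind G χ (U.image (τ v)) v C - dind G χ (U'.image (τ v)) v C)
          ≤ e := by
        have b1 := Ex_sq_le (S := S) (q := pq χ p b) (r := r) hq0 hq1
          (f := fun C => dind G χ (U.image (τ v)) v C - dind G χ (U'.image (τ v)) v C)
          (fun C => by
            have := dind_mono h.pr hUU hvU C
            rcases dind_cases (G := G) (χ := χ) (U.image (τ v)) v C with h | h <;>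
              rcases dind_cases (G := G) (χ := χ) (U'.image (τ v)) v C with h' | h' <;>
              first | (left; linarith) | (right; linarith))
        have b2 : ∏ u ∈ S, (1 + (r u - pq χ p b u) ^ 2 / (pq χ p b u * (1 - pq χ p b u))) ≤
            Real.exp ((W.filter χ).card * (s ^ 2 / (p * (1 - p)))) := by
          have hpp : 0 < p * (1 - p) := mul_pos hp0 (by linarith)
          calc ∏ u ∈ S, (1 + (r u - pq χ p b u) ^ 2 / (pq χ p b u * (1 - pq χ p b u)))
              ≤ ∏ u ∈ S, Real.exp (if u ∈ W.filter χ then s ^ 2 / (p * (1 - p)) else 0) := by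
                refine prod_le_prod (fun u _ => ?_) (fun u _ => ?_)
                · have := mul_pos (hq0 u) (sub_pos.2 (hq1 u))
                  positivity
                refine le_trans ?_ (Real.add_one_le_exp _)
                rw [add_comm]
                gcongr
                split_ifs with hu
                · have h3 := h2 u
                  rw [pq_pos _ _ (mem_filter.1 hu).2] at h3 ⊢
                  exact div_le_div_of_nonneg_right
                    (sq_le_sq' (abs_le.mp h3).1 (abs_le.mp h3).2) hpp.le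
                · rcases hr u with h | ⟨h, -⟩
                  · simp [h]
                  · exact absurd h hu
            _ = _ := by
                rw [← Real.exp_sum, ← sum_filter, filter_mem_eq_inter, inter_eq_right.mpr hWS]
                simp
        have b3 : 0 ≤ th G χ o (pq χ p b) U - th G χ o (pq χ p b) U' := by
          rw [← t1, ← t2, sub_nonneg]
          exact Ex_mono (fun u => (hq0 u).le) (fun u => (hq1 u).le)
            (fun C _ => dind_mono h.pr hUU hvU C)
        rw [Ex_sub S (pq χ p b), t1, t2] at b1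
        exact abs_le_of_sq_le_sq' (b1.trans ((mul_le_mul_of_nonneg_left b2 b3).trans hε)) he |>.2
      rw [Ex_sub] at a2
      have a3 : Ex S r (dind G χ (U'.image (τ v)) v) ≤ Ex S r (dind G χ W v) :=
        Ex_mono h0 h1 (fun C _ => dind_mono h.pr (hW v hv) hv C)
      have a4 : Ex S r (dind G χ W v) ≤
          Ex S r (fun C => FF G χ W (C.erase v) - FF G χ W (insert v C)) :=
        Ex_mono h0 h1 fun C _ => by simpa [hc] using dind_le_FF h.pr hv C
      rw [pq_pos _ _ hc, sub_sub_cancel]
      exact mul_le_mul_of_nonneg_left (by linarith) hs0)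
  have c1 : Ex S (fun u => if u ∈ W.filter χ then p - s else pq χ p b u) (FF G χ W) ≤
      (supp G W \ W).card := by
    refine (Ex_mono (fun u => ?_) (fun u => ?_) (g := fun _ => ((supp G W \ W).card : ℝ))
      fun C _ => (abs_le.mp (abs_FF_le W C)).2).trans (Ex_const _ _ _).le
    · split_ifs
      exacts [sub_nonneg.2 hs1, (hq0 u).le]
    · split_ifs
      exacts [by linarith, (hq1 u).le]
  have c2 : -((supp G W \ W).card : ℝ) ≤ Ex S (pq χ p b) (FF G χ W) :=
    (Ex_const S _ _).ge.trans (Ex_mono (fun u => (hq0 u).le) (fun u => (hq1 u).le)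
      (f := fun _ => -((supp G W \ W).card : ℝ)) fun C _ => (abs_le.mp (abs_FF_le W C)).1)
  simp only [sum_const, nsmul_eq_mul] at key
  linarith

open Classical in
/-- Two-dimensional isoperimetry. -/
def Iso (G : SimpleGraph V) [G.LocallyFinite] (χ : V → Prop) : Prop :=
  ∃ c : ℝ, ∀ n : ℕ, ∃ W : Finset V, n ≤ (W.filter χ).card ∧
    ((supp G W \ W).card : ℝ) ≤ c * Real.sqrt (W.filter χ).card

theorem St.small (h : St G χ o τ) (hiso : Iso G χ) {p b : ℝ} (hp0 : 0 < p) (hp1 : p < 1)
    (hb0 : 0 < b) (hb1 : b < 1) : Small G χ o (pq χ p b) := by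
  classical
  obtain ⟨c, hiso⟩ := hiso
  intro δ hδ
  by_contra hcon
  push Not at hcon
  set A : Set ℝ := {x | ∃ U : Finset V, o ∈ U ∧ th G χ o (pq χ p b) U = x} with hA
  have hAne : A.Nonempty := ⟨_, {o}, mem_singleton_self o, rfl⟩
  have hAb : BddBelow A := ⟨δ, by rintro _ ⟨U, hU, rfl⟩; exact hcon U hU⟩
  set θ : ℝ := sInf A with hθ
  have hθδ : δ ≤ θ := le_csInf hAne (by rintro _ ⟨U, hU, rfl⟩; exact hcon U hU)
  have hθ0 : 0 < θ := hδ.trans_le hθδ
  have hθle : ∀ U : Finset V, o ∈ U → θ ≤ th G χ o (pq χ p b) U :=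
    fun U hU => csInf_le hAb ⟨U, hU, rfl⟩
  set t : ℝ := (4 * |c| + 1) / θ with ht
  have ht0 : 0 < t := by positivity
  set K : ℝ := Real.exp (t ^ 2 / (p * (1 - p))) with hK
  have hK0 : 0 < K := Real.exp_pos _
  obtain ⟨_, ⟨U, hoU, rfl⟩, hU⟩ := exists_lt_of_csInf_lt hAne
    (show sInf A < θ + (θ / 4) ^ 2 / K by
      rw [← hθ]; linarith [show 0 < (θ / 4) ^ 2 / K by positivity])
  set m : ℝ := ((supp G U).card : ℝ) with hm
  have hm0 : 0 ≤ m := Nat.cast_nonneg _
  set s₀ : ℝ := min p (θ / 4 / (m + 1)) with hs₀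
  have hs₀0 : 0 < s₀ := lt_min hp0 (by positivity)
  obtain ⟨n, hn⟩ := exists_nat_gt ((t / s₀) ^ 2)
  obtain ⟨W, hW1, hW2⟩ := hiso n
  have hn' : (t / s₀) ^ 2 < (W.filter χ).card := hn.trans_le (by exact_mod_cast hW1)
  have hW0 : (0 : ℝ) < (W.filter χ).card := lt_of_le_of_lt (sq_nonneg _) hn'
  set L : ℝ := Real.sqrt ((W.filter χ).card : ℝ) with hL
  have hL0 : 0 < L := Real.sqrt_pos.mpr hW0
  have hL2 : L ^ 2 = (W.filter χ).card := Real.sq_sqrt hW0.le
  have hL3 : t / s₀ < L := Real.lt_sqrt_of_sq_lt hn'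
  have hs : t / L ≤ s₀ := by
    rw [div_lt_iff₀ hs₀0] at hL3
    rw [div_le_iff₀ hL0]
    linarith
  set U' : Finset V := U ∪ W.biUnion (fun v => W.image (τ v).symm) with hU'
  have hkey := h.key (s := t / L) (e := θ / 4) hp0 hp1 hb0 hb1 (by positivity)
    (hs.trans (min_le_left _ _)) (by positivity)
    (U := U) (U' := U') (W := W) hoU subset_union_left
    (fun v hv w hw => mem_image.mpr ⟨(τ v).symm w,
      mem_union_right _ (mem_biUnion.mpr ⟨v, hv, mem_image_of_mem _ hw⟩), by simp⟩)
    (by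
      have h1 : ((W.filter χ).card : ℝ) * ((t / L) ^ 2 / (p * (1 - p))) = t ^ 2 / (p * (1 - p)) := by
        rw [← hL2]
        field_simp
      rw [h1, ← hK, ← le_div_iff₀ hK0]
      have := hθle U' (mem_union_left _ hoU)
      linarith)
  have h2 : t / L * m ≤ θ / 4 := by
    have h3 : t / L ≤ θ / 4 / (m + 1) := hs.trans (min_le_right _ _)
    rw [le_div_iff₀ (by positivity)] at h3
    have : 0 ≤ t / L := by positivity
    nlinarith
  have h3 : θ / 2 ≤ th G χ o (pq χ p b) U - t / L * m - θ / 4 := by linarith [hθle U hoU]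
  have h4 : ((W.filter χ).card : ℝ) * (t / L * (θ / 2)) ≤ 2 * (c * L) := by
    refine le_trans ?_ (hkey.trans (by linarith))
    gcongr
  have h5 : ((W.filter χ).card : ℝ) * (t / L * (θ / 2)) = L * ((4 * |c| + 1) / 2) := by
    rw [← hL2, ht]
    field_simp
  rw [h5] at h4
  nlinarith [le_abs_self c]

end Pool.Agent.P.MP_985e29_pr.Two
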