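import Pool.Agent.P.MP_985e29_pr.AW
import Pool.Agent.P.MP_985e29_pr.Game

open Finset

namespace Pool.Agent.P.MP_985e29_pr.Two

variable {V : Type} [DecidableEq V]

lemma Ex_image' (φ : V → V) (hφ : Function.Injective φ) (S : Finset V) (r : V → ℝ)
    (f : Finset V → ℝ) :
    Ex (S.image φ) r f = Ex S (fun u => r (φ u)) (fun C => f (C.image φ)) := by
  induction S using Finset.induction_on generalizing f with
  | empty => simp [Ex, wt]
  | insert a S ha ih =>
    rw [image_insert, Ex_insert (by simpa [hφ.eq_iff] using ha), Ex_insert ha, ih, ih]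
    simp only [image_insert]

lemma Ex_mono0 {S : Finset V} {q : V → ℝ} (h0 : ∀ v, 0 ≤ q v) (h1 : ∀ v, q v ≤ 1)
    {f g : Finset V → ℝ} (h : ∀ C ⊆ S, (∀ u ∈ C, q u ≠ 0) → f C ≤ g C) : Ex S q f ≤ Ex S q g := by
  refine sum_le_sum fun C hC => ?_
  by_cases hc : ∀ u ∈ C, q u ≠ 0
  · exact mul_le_mul_of_nonneg_left (h C (mem_powerset.mp hC) hc) (wt_nonneg h0 h1 C)
  · simp only [not_forall, not_not] at hc
    obtain ⟨u, hu, hq⟩ := hc
    have : wt S q C = 0 := by rw [wt, prod_eq_zero hu hq, zero_mul]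
    simp [this]

lemma Ex_sum {ι : Type} (S : Finset V) (q : V → ℝ) (T : Finset ι) (f : ι → Finset V → ℝ) :
    Ex S q (fun C => ∑ i ∈ T, f i C) = ∑ i ∈ T, Ex S q (f i) := by
  simp only [Ex, mul_sum]
  exact sum_comm

lemma Ex_add (S : Finset V) (q : V → ℝ) (f g : Finset V → ℝ) :
    Ex S q (fun C => f C + g C) = Ex S q f + Ex S q g := by
  simp only [Ex, mul_add, sum_add_distrib]

lemma Ex_tilt {χ : V → Prop} {S : Finset V} {r r' : V → ℝ} (h0 : ∀ u, 0 ≤ r u)
    (h1 : ∀ u, r' u ≤ 1) (h : ∀ u, r u ≤ r' u) (he : ∀ u, ¬ χ u → r u = r' u)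
    {f : Finset V → ℝ} (hf : ∀ w, χ w → ∀ C, f (C.erase w) ≤ f (insert w C)) :
    Ex S r f ≤ Ex S r' f := by
  have key := Ex_telescope (S := S) (q := r) (q' := r') f (fun _ => 0) Subset.rfl
    (fun t ht v _ => by
      by_cases hv : χ v
      · have a0 : ∀ u, 0 ≤ t u := fun u => by
          rcases ht u with e | ⟨-, e⟩ <;> rw [e] <;> linarith [h0 u, h u]
        have a1 : ∀ u, t u ≤ 1 := fun u => by
          rcases ht u with e | ⟨-, e⟩ <;> rw [e] <;> linarith [h1 u, h u]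
        exact mul_nonneg_of_nonpos_of_nonpos (sub_nonpos.2 (h v))
          ((Ex_mono a0 a1 (g := fun _ => 0) fun C _ => sub_nonpos.2 (hf v hv C)).trans
            (Ex_const _ _ _).le)
      · rw [he v hv, sub_self, zero_mul])
  rw [Ex_congr_q (r := r') (fun v hv => by simp [hv])] at key
  simpa using key

lemma Ex_ins {S : Finset V} {r : V → ℝ} (h0 : ∀ u, 0 ≤ r u) (h1 : ∀ u, r u ≤ 1) {o : V}
    (ho : o ∈ S) {f : Finset V → ℝ} (hf : ∀ C, 0 ≤ f C) :
    r o * Ex S r (fun C => f (insert o C)) ≤ Ex S r f := by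
  rw [← insert_erase ho, Ex_insert (notMem_erase o S), Ex_insert (notMem_erase o S)]
  simp only [insert_idem]
  have h2 : 0 ≤ Ex (S.erase o) r f :=
    (Ex_const _ r 0).ge.trans (Ex_mono h0 h1 (f := fun _ => 0) fun C _ => hf C)
  nlinarith [mul_nonneg (sub_nonneg.2 (h1 o)) h2]

open Classical in
/-- Closing probability `a` on the class `χ`, `b` on the other class. -/
noncomputable def pq (χ : V → Prop) (a b : ℝ) (u : V) : ℝ := if χ u then a else b

omit [DecidableEq V] in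
lemma pq_nonneg {χ : V → Prop} {a b : ℝ} (ha : 0 ≤ a) (hb : 0 ≤ b) (u : V) : 0 ≤ pq χ a b u := by
  unfold pq
  split_ifs <;> assumption

omit [DecidableEq V] in
lemma pq_le {χ : V → Prop} {a b : ℝ} (ha : a ≤ 1) (hb : b ≤ 1) (u : V) : pq χ a b u ≤ 1 := by
  unfold pq
  split_ifs <;> assumption

omit [DecidableEq V] in
lemma pq_pos {χ : V → Prop} (a b : ℝ) {u : V} (h : χ u) : pq χ a b u = a := if_pos h

omit [DecidableEq V] in
lemma pq_neg {χ : V → Prop} (a b : ℝ) {u : V} (h : ¬ χ u) : pq χ a b u = b := if_neg h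

variable (G : SimpleGraph V) [G.LocallyFinite]

open Classical in
/-- Indicator that `v` is essential under the boundary condition `P`. -/
noncomputable def ind (P : V → Prop) (v : V) (U C : Finset V) : ℝ :=
  if ess G (reg G U P \ C.erase v) v then 1 else 0

/-- Its expectation. -/
noncomputable def gU (P : V → Prop) (o : V) (r : V → ℝ) (U : Finset V) : ℝ :=
  Ex (supp G U) r (ind G P o U)

/-- The finite-volume draw probabilities at `o` tend to zero. -/
def Small (χ : V → Prop) (o : V) (r : V → ℝ) : Prop :=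
  ∀ δ : ℝ, 0 < δ → ∃ U, o ∈ U ∧ Ex (supp G U) r (dind G χ U o) < δ

/-- A two-colouring with symmetries that are transitive on the class of `o`. -/
structure St (χ : V → Prop) (o : V) (τ : V → G ≃g G) : Prop where
  pr : ∀ a b, G.Adj a b → (χ a ↔ ¬ χ b)
  ho : χ o
  mv : ∀ v, χ v → τ v o = v
  cl : ∀ v w, χ v → (χ (τ v w) ↔ χ w)

variable {G} {χ P : V → Prop}

lemma ind_nonneg (v : V) (U C : Finset V) : 0 ≤ ind G P v U C := by
  unfold ind
  split_ifs <;> norm_num

lemma ind_le (v : V) (U C : Finset V) : ind G P v U C ≤ 1 := by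
  unfold ind
  split_ifs <;> norm_num

lemma ind_le_of {Q : V → Prop} {v w : V} {U C U' C' : Finset V}
    (h : ess G (reg G U P \ C.erase v) v → ess G (reg G U' Q \ C'.erase w) w) :
    ind G P v U C ≤ ind G Q w U' C' := by
  unfold ind
  split_ifs with h1 h2
  · exact le_rfl
  · exact absurd (h h1) h2
  · norm_num
  · exact le_rfl

lemma ind_local (v : V) (U C : Finset V) : ind G P v U C = ind G P v U (C ∩ supp G U) := by
  have : reg G U P \ (C ∩ supp G U).erase v = reg G U P \ C.erase v := by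
    ext x
    have := @reg_subset_supp _ _ G _ U P x
    simp only [mem_sdiff, mem_erase, mem_inter]
    tauto
  unfold ind
  rw [this]

lemma Ex_ind_image (φ : G ≃g G) (hP : ∀ w, P (φ w) ↔ P w) {r : V → ℝ} (hr : ∀ w, r (φ w) = r w)
    (o : V) (U : Finset V) {S : Finset V} (hS : supp G (U.image φ) ⊆ S) :
    Ex S r (ind G P (φ o) (U.image φ)) = gU G P o r U := by
  rw [Ex_local _ (ind_local _ _) hS, supp_image, Ex_image' φ φ.injective]
  simp only [hr]
  refine Ex_congr fun C _ => ?_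
  unfold ind
  rw [reg_image φ U (P := P) hP, ← image_erase φ.injective, ← image_sdiff _ _ φ.injective,
    ess_image]

lemma ind_anti (hP : ∀ a b, G.Adj a b → (P a ↔ ¬ P b)) {W W' : Finset V} (h : W ⊆ W') {v : V}
    (hv : v ∈ W) (hPv : P v) (C : Finset V) : ind G P v W' C ≤ ind G P v W C :=
  ind_le_of ((ess_reg hP (reg_mono h _) hv (notMem_erase v C)).2 hPv)

lemma ind_mono (hP : ∀ a b, G.Adj a b → (P a ↔ ¬ P b)) {W W' : Finset V} (h : W ⊆ W') {v : V}
    (hv : v ∈ W) (hPv : ¬ P v) (C : Finset V) : ind G P v W C ≤ ind G P v W' C :=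
  ind_le_of ((ess_reg hP (reg_mono h _) hv (notMem_erase v C)).1 hPv)

lemma ind_close (hχ : ∀ a b, G.Adj a b → (χ a ↔ ¬ χ b)) {v : V} (hv : χ v) (U : Finset V) (w : V)
    (hw : χ w) (C : Finset V) : ind G P v U (C.erase w) ≤ ind G P v U (insert w C) := by
  refine ind_le_of fun he => (ess_mono hχ (fun x hx => ?_) (fun u _ hu x hx hadj => ?_)
    (mem_sdiff.2 ⟨(mem_sdiff.1 he.mem).1, notMem_erase _ _⟩)).2 hv he
  · simp only [mem_sdiff, mem_erase, mem_insert] at hx ⊢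
    tauto
  · have h1 : x ≠ w := fun e => (hχ u x hadj).1 hu (e ▸ hw)
    simp only [mem_sdiff, mem_erase, mem_insert] at hx ⊢
    tauto

omit [DecidableEq V] [G.LocallyFinite] in
lemma neg_proper (hχ : ∀ a b, G.Adj a b → (χ a ↔ ¬ χ b)) :
    ∀ a b, G.Adj a b → (¬ χ a ↔ ¬ ¬ χ b) := fun a b h => not_congr (hχ a b h)

lemma dind_eq (hχ : ∀ a b, G.Adj a b → (χ a ↔ ¬ χ b)) {U : Finset V} {v : V} (hv : v ∈ U)
    (hc : χ v) (C : Finset V) :
    dind G χ U v C = ind G χ v U C - ind G (fun u => ¬ χ u) v U C := by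
  have h3 := ess_opp_same hχ hv (notMem_erase v C)
  unfold dind Drawish ind
  rw [reg_congr U (P := fun u => χ u ↔ χ v) (Q := χ) (by simp [hc]),
    reg_congr U (P := fun u => ¬ (χ u ↔ χ v)) (Q := fun u => ¬ χ u) (by simp [hc])] at *
  by_cases e1 : ess G (reg G U χ \ C.erase v) v <;>
    by_cases e2 : ess G (reg G U (fun u => ¬ χ u) \ C.erase v) v <;> simp_all

lemma gU_nonneg {o : V} {r : V → ℝ} (h0 : ∀ u, 0 ≤ r u) (h1 : ∀ u, r u ≤ 1) (U : Finset V) :
    0 ≤ gU G P o r U :=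
  (Ex_const _ r 0).ge.trans (Ex_mono h0 h1 (f := fun _ => 0) fun C _ => ind_nonneg _ _ C)

lemma gU_le {o : V} {r : V → ℝ} (h0 : ∀ u, 0 ≤ r u) (h1 : ∀ u, r u ≤ 1) (U : Finset V) :
    gU G P o r U ≤ 1 :=
  (Ex_mono h0 h1 (g := fun _ => 1) fun C _ => ind_le _ _ C).trans (Ex_const _ r 1).le

variable {o : V} {τ : V → G ≃g G}

omit [DecidableEq V] [G.LocallyFinite] in
lemma St.pq_inv (h : St G χ o τ) (a b : ℝ) {v : V} (hv : χ v) (w : V) :
    pq χ a b (τ v w) = pq χ a b w := by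
  by_cases hw : χ w
  · rw [pq_pos _ _ hw, pq_pos _ _ ((h.cl v w hv).2 hw)]
  · rw [pq_neg _ _ hw, pq_neg _ _ fun e => hw ((h.cl v w hv).1 e)]

lemma St.site (h : St G χ o τ) (hP : ∀ v w, χ v → (P (τ v w) ↔ P w)) (a b : ℝ) {W S : Finset V}
    {v : V} (hv : v ∈ W) (hc : χ v) (hS : supp G W ⊆ S) :
    ∃ U : Finset V, o ∈ U ∧ Ex S (pq χ a b) (ind G P v W) = gU G P o (pq χ a b) U := by
  have e : (W.image (τ v).symm).image (τ v) = W := by
    rw [image_image]
    simp [Function.comp_def]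
  refine ⟨W.image (τ v).symm, mem_image.2 ⟨v, hv, ?_⟩, ?_⟩
  · rw [RelIso.symm_apply_eq, h.mv v hc]
  · have := Ex_ind_image (τ v) (fun w => hP v w hc) (h.pq_inv a b hc) o (W.image (τ v).symm)
      (S := S) (by rwa [e])
    rwa [e, h.mv v hc] at this

open Classical in
lemma St.tele (h : St G χ o τ) (hP : ∀ v w, χ v → (P (τ v w) ↔ P w)) {a a' b : ℝ} (ha : 0 ≤ a)
    (haa : a ≤ a') (ha' : a' ≤ 1) (hb : 0 ≤ b) (hb' : b ≤ 1) {W S : Finset V} (hS : supp G W ⊆ S) :
    (∀ x, (∀ U, o ∈ U → x ≤ gU G P o (pq χ a b) U) → (W.filter χ).card * ((a' - a) * x) ≤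
      Ex S (pq χ a b) (fun C => (nu G (reg G W P \ C) : ℝ)) -
        Ex S (fun u => if u ∈ W.filter χ then a' else pq χ a b u)
          (fun C => (nu G (reg G W P \ C) : ℝ))) ∧
    ∀ y, (∀ U, o ∈ U → gU G P o (pq χ a' b) U ≤ y) →
      Ex S (pq χ a b) (fun C => (nu G (reg G W P \ C) : ℝ)) -
        Ex S (fun u => if u ∈ W.filter χ then a' else pq χ a b u)
          (fun C => (nu G (reg G W P \ C) : ℝ)) ≤ (W.filter χ).card * ((a' - a) * y) := by
  have hT : W.filter χ ⊆ S := (filter_subset _ _).trans ((subset_supp W).trans hS)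
  have hr : ∀ r : V → ℝ, (∀ u, r u = pq χ a b u ∨ (u ∈ W.filter χ ∧ r u = a')) →
      (∀ u, pq χ a b u ≤ r u ∧ r u ≤ pq χ a' b u) ∧
        ∀ u, ¬ χ u → pq χ a b u = r u ∧ r u = pq χ a' b u := by
    intro r hr
    have h2 : ∀ u, ¬ χ u → pq χ a b u = r u ∧ r u = pq χ a' b u := fun u hu => by
      rcases hr u with e | ⟨e, -⟩
      · rw [e, pq_neg _ _ hu, pq_neg _ _ hu]
        exact ⟨rfl, rfl⟩
      · exact absurd (mem_filter.1 e).2 hu
    refine ⟨fun u => ?_, h2⟩
    by_cases hu : χ u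
    · rw [pq_pos _ _ hu, pq_pos _ _ hu]
      rcases hr u with e | ⟨-, e⟩
      · rw [e, pq_pos _ _ hu]
        exact ⟨le_rfl, haa⟩
      · rw [e]
        exact ⟨haa, le_rfl⟩
    · exact ⟨(h2 u hu).1.le, (h2 u hu).2.le⟩
  have h4 : ∀ (c : ℝ) r v, Ex S r (fun C => c * nu G (reg G W P \ C.erase v) -
      c * nu G (reg G W P \ insert v C)) = c * Ex S r (ind G P v W) := fun c r v => by
    rw [← Ex_const_mul]
    refine Ex_congr fun C _ => ?_
    rw [ind, ← nu_diff]
    ring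
  constructor
  · intro x hx
    have key := Ex_telescope (S := S) (q := pq χ a b) (q' := fun _ => a')
      (fun C => (-1 : ℝ) * nu G (reg G W P \ C)) (fun _ => (a' - a) * x) hT fun r hr' v hv => by
        obtain ⟨hv1, hv2⟩ := mem_filter.1 hv
        obtain ⟨h1, h2⟩ := hr r hr'
        obtain ⟨U, hU, e2⟩ := h.site hP a b hv1 hv2 hS
        have h3 := Ex_tilt (S := S) (pq_nonneg ha hb) (fun u => (h1 u).2.trans (pq_le ha' hb' u))
          (fun u => (h1 u).1) (fun u hu => (h2 u hu).1) (ind_close (P := P) h.pr hv2 W)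
        rw [h4, pq_pos _ _ hv2]
        nlinarith [mul_le_mul_of_nonneg_left ((hx U hU).trans (e2.ge.trans h3)) (sub_nonneg.2 haa)]
    rw [Ex_const_mul, Ex_const_mul, sum_const, nsmul_eq_mul] at key
    linarith
  · intro y hy
    have key := Ex_telescope (S := S) (q := pq χ a b) (q' := fun _ => a')
      (fun C => (1 : ℝ) * nu G (reg G W P \ C)) (fun _ => -((a' - a) * y)) hT fun r hr' v hv => by
        obtain ⟨hv1, hv2⟩ := mem_filter.1 hv
        obtain ⟨h1, h2⟩ := hr r hr'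
        obtain ⟨U, hU, e2⟩ := h.site hP a' b hv1 hv2 hS
        have h3 := Ex_tilt (S := S) (fun u => (pq_nonneg ha hb u).trans (h1 u).1) (pq_le ha' hb')
          (fun u => (h1 u).2) (fun u hu => (h2 u hu).2) (ind_close (P := P) h.pr hv2 W)
        rw [h4, pq_pos _ _ hv2]
        nlinarith [mul_le_mul_of_nonneg_left (h3.trans (e2.le.trans (hy U hU))) (sub_nonneg.2 haa)]
    rw [Ex_const_mul, Ex_const_mul, sum_const, nsmul_eq_mul] at key
    linarith

open Classical in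
/-- Sets with small boundary. -/
def Fol (G : SimpleGraph V) [G.LocallyFinite] (χ : V → Prop) : Prop :=
  ∀ ε : ℝ, 0 < ε → ∃ W : Finset V, ((supp G W \ W).card : ℝ) < ε * (W.filter χ).card

lemma Ex_FF {r : V → ℝ} (h0 : ∀ u, 0 ≤ r u) (h1 : ∀ u, r u ≤ 1) (W S : Finset V) :
    |Ex S r (fun C => (nu G (reg G W χ \ C) : ℝ)) -
      Ex S r (fun C => (nu G (reg G W (fun u => ¬ χ u) \ C) : ℝ))| ≤ (supp G W \ W).card := by
  rw [← Ex_sub, abs_le]
  exact ⟨(Ex_const S r _).ge.trans (Ex_mono h0 h1 (f := fun _ => -((supp G W \ W).card : ℝ))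
      fun C _ => (abs_le.mp (abs_FF_le (χ := χ) W C)).1),
    (Ex_mono h0 h1 (g := fun _ => ((supp G W \ W).card : ℝ))
      fun C _ => (abs_le.mp (abs_FF_le (χ := χ) W C)).2).trans (Ex_const _ _ _).le⟩

lemma St.slope (h : St G χ o τ) (hF : Fol G χ) {a a' b x y : ℝ} (ha : 0 ≤ a)
    (haa : a < a') (ha' : a' ≤ 1) (hb : 0 ≤ b) (hb' : b ≤ 1)
    (hx : ∀ U, o ∈ U → x ≤ gU G χ o (pq χ a b) U)
    (hy : ∀ U, o ∈ U → gU G (fun u => ¬ χ u) o (pq χ a' b) U ≤ y) : x ≤ y := by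
  classical
  by_contra hc
  rw [not_le] at hc
  obtain ⟨W, hW⟩ := hF ((a' - a) * (x - y) / 2) (half_pos (mul_pos (sub_pos.2 haa) (sub_pos.2 hc)))
  have h1 := (h.tele h.cl ha haa.le ha' hb hb' (Subset.refl (supp G W))).1 x hx
  have h2 := (h.tele (P := fun u => ¬ χ u) (fun v w hv => not_congr (h.cl v w hv)) ha haa.le ha' hb
    hb' (Subset.refl (supp G W))).2 y hy
  have h3 := abs_le.1 (Ex_FF (G := G) (χ := χ) (pq_nonneg (χ := χ) ha hb)
    (pq_le (haa.le.trans ha') hb') W (supp G W))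
  have h4 := abs_le.1 (Ex_FF (G := G) (χ := χ)
    (r := fun u => if u ∈ W.filter χ then a' else pq χ a b u)
    (fun u => by
      split_ifs
      exacts [ha.trans haa.le, pq_nonneg ha hb u]) (fun u => by
      split_ifs
      exacts [ha', pq_le (haa.le.trans ha') hb' u]) W (supp G W))
  linarith [h3.1, h3.2, h4.1, h4.2]

/-- Limit under the favourable boundary condition. -/
noncomputable def G2 (G : SimpleGraph V) [G.LocallyFinite] (χ : V → Prop) (o : V) (r : V → ℝ) : ℝ :=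
  sInf (gU G χ o r '' {U | o ∈ U})

/-- Limit under the unfavourable boundary condition. -/
noncomputable def G1 (G : SimpleGraph V) [G.LocallyFinite] (χ : V → Prop) (o : V) (r : V → ℝ) : ℝ :=
  sSup (gU G (fun u => ¬ χ u) o r '' {U | o ∈ U})

lemma G2_le {r : V → ℝ} (h0 : ∀ u, 0 ≤ r u) (h1 : ∀ u, r u ≤ 1) (U : Finset V) (hU : o ∈ U) :
    G2 G χ o r ≤ gU G χ o r U :=
  csInf_le ⟨0, by rintro _ ⟨U, -, rfl⟩; exact gU_nonneg h0 h1 U⟩ ⟨U, hU, rfl⟩

lemma le_G1 {r : V → ℝ} (h0 : ∀ u, 0 ≤ r u) (h1 : ∀ u, r u ≤ 1) (U : Finset V) (hU : o ∈ U) :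
    gU G (fun u => ¬ χ u) o r U ≤ G1 G χ o r :=
  le_csSup ⟨1, by rintro _ ⟨U, -, rfl⟩; exact gU_le h0 h1 U⟩ ⟨U, hU, rfl⟩

lemma small_of (hχ : ∀ a b, G.Adj a b → (χ a ↔ ¬ χ b)) (ho : χ o) {r : V → ℝ} (h0 : ∀ u, 0 ≤ r u)
    (h1 : ∀ u, r u ≤ 1) (h : G2 G χ o r ≤ G1 G χ o r) : Small G χ o r := by
  intro δ hδ
  obtain ⟨_, ⟨U, hU, rfl⟩, h2⟩ := exists_lt_of_csInf_lt
    (s := gU G χ o r '' {U | o ∈ U}) ⟨_, {o}, mem_singleton_self o, rfl⟩
    (show G2 G χ o r < G2 G χ o r + δ / 2 by linarith)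
  obtain ⟨_, ⟨U', hU', rfl⟩, h3⟩ := exists_lt_of_lt_csSup
    (s := gU G (fun u => ¬ χ u) o r '' {U | o ∈ U}) ⟨_, {o}, mem_singleton_self o, rfl⟩
    (show G1 G χ o r - δ / 2 < G1 G χ o r by linarith)
  have hU2 : o ∈ U ∪ U' := mem_union_left _ hU
  refine ⟨U ∪ U', hU2, ?_⟩
  rw [Ex_congr fun C _ => dind_eq hχ hU2 ho C, Ex_sub]
  have h4 := Ex_mono (S := supp G (U ∪ U')) h0 h1 fun C _ =>
    ind_anti hχ (subset_union_left (s₂ := U')) hU ho C
  have h5 := Ex_mono (S := supp G (U ∪ U')) h0 h1 fun C _ =>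
    ind_mono (neg_proper hχ) (subset_union_right (s₁ := U)) hU' (not_not.2 ho) C
  rw [Ex_local _ (ind_local o U) (supp_mono subset_union_left)] at h4
  rw [Ex_local _ (ind_local o U') (supp_mono subset_union_right)] at h5
  unfold gU at h2 h3
  linarith

theorem St.countable (h : St G χ o τ) (hF : Fol G χ) {b : ℝ} (hb : 0 ≤ b) (hb' : b ≤ 1) :
    {a : unitInterval | ¬ Small G χ o (pq χ a b)}.Countable := by
  refine Set.PairwiseDisjoint.countable_of_isOpen
    (s := fun a : unitInterval => Set.Ioo (G1 G χ o (pq χ a b)) (G2 G χ o (pq χ a b)))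
    (fun a _ a' _ hne => ?_) (fun _ _ => isOpen_Ioo) fun a ha => Set.nonempty_Ioo.2
      (not_le.1 fun h1 => ha (small_of h.pr h.ho (pq_nonneg a.2.1 hb) (pq_le a.2.2 hb') h1))
  have key : ∀ a a' : unitInterval, a < a' → G2 G χ o (pq χ a b) ≤ G1 G χ o (pq χ a' b) :=
    fun a a' hlt => h.slope hF a.2.1 hlt a'.2.2 hb hb'
      (G2_le (pq_nonneg a.2.1 hb) (pq_le a.2.2 hb'))
      (le_G1 (pq_nonneg a'.2.1 hb) (pq_le a'.2.2 hb'))
  refine Set.disjoint_left.2 fun x h1 h2 => ?_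
  rcases hne.lt_or_gt with h3 | h3
  · linarith [key _ _ h3, h1.2, h2.1]
  · linarith [key _ _ h3, h2.2, h1.1]

lemma dind_nonneg (U : Finset V) (v : V) (C : Finset V) : 0 ≤ dind G χ U v C := by
  rcases dind_cases (G := G) (χ := χ) U v C with h | h <;> simp [h]

theorem small_nbr (hχ : ∀ a b, G.Adj a b → (χ a ↔ ¬ χ b)) {r : V → ℝ} (h0 : ∀ u, 0 ≤ r u)
    (h1 : ∀ u, r u ≤ 1) (hr : 0 < r o) (h : ∀ u, G.Adj o u → Small G χ u r) : Small G χ o r := by
  classical
  intro δ hδ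
  set N := G.neighborFinset o with hN
  have hε : 0 < δ * r o / (N.card + 1) := by positivity
  choose! U hU hU' using fun u (hu : G.Adj o u) => h u hu _ hε
  set W := insert o (N.biUnion U) with hW
  have hoW : o ∈ W := mem_insert_self _ _
  have hsub : ∀ u ∈ N, U u ⊆ W := fun u hu => (subset_biUnion_of_mem U hu).trans (subset_insert _ _)
  refine ⟨W, hoW, ?_⟩
  have h2 : ∀ C, dind G χ W o C ≤ ∑ u ∈ N, dind G χ (U u) u (insert o C) := by
    intro C
    by_cases hD : Drawish G χ W o C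
    · obtain ⟨u, hu, hadj, hne⟩ := (ess_iff hD.1.mem).1 hD.1
      have huN : u ∈ N := (G.mem_neighborFinset o u).2 hadj
      have huW : u ∈ W := hsub u huN (hU u hadj)
      have hc := hχ o u hadj
      have huC : u ∉ insert o C := by
        simp only [mem_erase, mem_sdiff, mem_insert] at hu ⊢
        tauto
      have e : ∀ R : Finset V, (R \ C.erase o).erase o = R \ (insert o C).erase u := fun R => by
        rw [erase_eq_of_notMem huC]
        ext x
        simp only [mem_erase, mem_sdiff, mem_insert]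
        tauto
      have h3 : Drawish G χ W u (insert o C) := by
        constructor
        · by_contra h4
          refine hD.2 ((ess_iff (mem_sdiff.2 ⟨subset_reg W _ hoW, notMem_erase _ _⟩)).2
            ⟨u, ?_, hadj, ?_⟩)
          · rw [e]
            exact mem_sdiff.2 ⟨subset_reg W _ huW, notMem_erase _ _⟩
          · rwa [e, reg_congr W (Q := fun x => χ x ↔ χ u) fun x => by tauto]
        · rwa [e, reg_congr W (Q := fun x => ¬ (χ x ↔ χ u)) fun x => by tauto] at hne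
      have h4 : dind G χ (U u) u (insert o C) = 1 :=
        if_pos (drawish_mono hχ (hsub u huN) (hU u hadj) h3)
      rw [show dind G χ W o C = 1 from if_pos hD, ← h4]
      exact single_le_sum (f := fun u => dind G χ (U u) u (insert o C))
        (fun u _ => dind_nonneg _ _ _) huN
    · rw [show dind G χ W o C = 0 from if_neg hD]
      exact sum_nonneg fun u _ => dind_nonneg _ _ _
  have h3 := Ex_mono (S := supp G W) h0 h1 fun C _ => h2 C
  rw [Ex_sum] at h3
  have h4 := mul_le_mul_of_nonneg_left h3 hr.le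
  rw [mul_sum] at h4
  have h5 := h4.trans (sum_le_card_nsmul N _ (δ * r o / (N.card + 1)) fun u hu =>
    (Ex_ins h0 h1 (subset_supp W hoW) (dind_nonneg (U u) u)).trans (by
      rw [Ex_local _ (dind_local _ _) (supp_mono (hsub u hu))]
      exact (hU' u ((G.mem_neighborFinset o u).1 hu)).le))
  rw [nsmul_eq_mul, ← mul_div_assoc, le_div_iff₀ (by positivity)] at h5
  by_contra h6
  have h7 := mul_le_mul_of_nonneg_left (not_lt.1 h6) (show 0 ≤ r o * (N.card + 1) by positivity)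
  nlinarith [mul_pos hδ hr]

end Pool.Agent.P.MP_985e29_pr.Two
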