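import Mathlib

namespace Pool.Agent.P.MP_985e29_pr.Two

/-- The graph on `ℤ^d` with steps `±S`, restricted to the vertices outside the closed set `C`. -/
def board {d : ℕ} (S : Finset (Fin d → ℤ)) (C : Set (Fin d → ℤ)) : SimpleGraph (Fin d → ℤ) :=
  SimpleGraph.fromRel fun x y => y - x ∈ S ∧ x ∉ C ∧ y ∉ C

/-- The closed set: odd vertices of `z.1` and even vertices of `z.2`; the parity of `x` is that of
`l x`. -/
def closedSet {d : ℕ} (l : (Fin d → ℤ) →+ ℤ) (z : Set (Fin d → ℤ) × Set (Fin d → ℤ)) :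
    Set (Fin d → ℤ) :=
  {x | (Odd (l x) ∧ x ∈ z.1) ∨ (¬ Odd (l x) ∧ x ∈ z.2)}

end Pool.Agent.P.MP_985e29_pr.Two
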