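import Pool.Agent.P.MP_985e29_pr.Two.Base

open Finset

namespace Pool.Agent.P.MP_985e29_pr.Two

variable {V : Type} [DecidableEq V]

open Classical in
lemma Ex_cyl {S A B : Finset V} (r : V → ℝ) (hS : A ∪ B ⊆ S) (hAB : Disjoint A B) :
    Ex S r (fun C => if A ⊆ C ∧ Disjoint B C then 1 else 0) =
      (∏ u ∈ A, r u) * ∏ u ∈ B, (1 - r u) := by
  rw [Ex_local (T := A ∪ B) r (fun C => by
    refine if_congr (and_congr ?_ ?_) rfl rfl
    · simp only [subset_inter_iff, subset_union_left, and_true]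
    · simp only [disjoint_left, mem_inter, mem_union]
      exact forall_congr' fun x => by tauto) hS, Ex, sum_eq_single A]
  · rw [if_pos ⟨Subset.rfl, hAB.symm⟩, mul_one, wt, union_sdiff_cancel_left hAB]
  · intro C hC hne
    rw [if_neg, mul_zero]
    rintro ⟨h1, h2⟩
    refine hne (Subset.antisymm (fun x hx => ?_) h1)
    rcases mem_union.1 (mem_powerset.1 hC hx) with h | h
    · exact h
    · exact absurd hx (disjoint_left.1 h2 h)
  · exact fun h => absurd (mem_powerset.2 subset_union_left) h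

variable {G : SimpleGraph V} {χ : V → Prop}

open Classical in
lemma nu_le_class (hχ : ∀ a b, G.Adj a b → (χ a ↔ ¬ χ b)) (K : Finset V) :
    nu G K ≤ (K.filter χ).card := by
  obtain ⟨M, hM, hc⟩ := exists_max (G := G) K
  rw [← hc]
  refine card_le_card_of_injOn (fun q => if χ q.1 then q.1 else q.2) (fun q hq => ?_) ?_
  · obtain ⟨a, b, c⟩ := hM.1 q hq
    simp only [coe_filter, Set.mem_ofPred_eq]
    split_ifs with h
    · exact ⟨b, h⟩
    · exact ⟨c, not_not.1 fun h' => h ((hχ _ _ a).2 h')⟩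
  · intro q hq r hr h
    by_contra hne
    obtain ⟨a, b, c, f⟩ := hM.2 q hq r hr hne
    simp only at h
    split_ifs at h <;> contradiction

lemma card_le_nu (hχ : ∀ a b, G.Adj a b → (χ a ↔ ¬ χ b)) {K T : Finset V} {f : V → V}
    (hT : ∀ v ∈ T, v ∈ K ∧ χ v ∧ G.Adj v (f v) ∧ f v ∈ K) (hf : Set.InjOn f T) :
    T.card ≤ nu G K := by
  rw [← card_image_of_injective T (f := fun v => (v, f v)) fun x y h => congrArg Prod.fst h]
  refine IsM.card_le ⟨fun q hq => ?_, fun q hq r hr hne => ?_⟩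
  · obtain ⟨x, hx, rfl⟩ := mem_image.1 hq
    exact ⟨(hT x hx).2.2.1, (hT x hx).1, (hT x hx).2.2.2⟩
  · obtain ⟨x, hx, rfl⟩ := mem_image.1 hq
    obtain ⟨y, hy, rfl⟩ := mem_image.1 hr
    have hxy : x ≠ y := fun h => hne (by rw [h])
    exact ⟨hxy, fun h => (hχ _ _ (hT y hy).2.2.1).1 (hT y hy).2.1 (by
        rw [← show x = f y from h]; exact (hT x hx).2.1),
      fun h => (hχ _ _ (hT x hx).2.2.1).1 (hT x hx).2.1 (by
        rw [show f x = y from h]; exact (hT y hy).2.1), fun h => hxy (hf hx hy h)⟩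

variable [G.LocallyFinite] {o : V} {τ : V → G ≃g G} {σ : Equiv.Perm V}

theorem St.odd_win (h : St G χ o τ) (hF : Fol G χ) (hσ : ∀ v, G.Adj v (σ v)) {a : ℝ} (ha : 0 < a)
    (ha' : a ≤ 1) : 1 ≤ G1 G χ o (pq χ a 0) := by
  classical
  refine h.slope hF le_rfl ha ha' le_rfl zero_le_one (fun U hU => ?_)
    (le_G1 (pq_nonneg ha.le le_rfl) (pq_le ha' zero_le_one))
  refine (Ex_const (supp G U) (pq χ 0 0) 1).ge.trans (Ex_mono0 (pq_nonneg le_rfl le_rfl)
    (pq_le zero_le_one zero_le_one) (f := fun _ => 1) fun C _ hC => ?_)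
  have hC' : C = ∅ := eq_empty_of_forall_notMem fun u hu => hC u hu (by simp [pq])
  rw [hC', ind, if_pos]
  rw [erase_empty, sdiff_empty]
  have h1 := nu_le_class h.pr ((reg G U χ).erase o)
  have h2 := card_le_nu h.pr (K := reg G U χ) (T := (reg G U χ).filter χ) (f := σ)
    (fun v hv => ⟨(mem_filter.1 hv).1, (mem_filter.1 hv).2, hσ v,
      reg_closed h.pr (mem_filter.1 hv).1 (mem_filter.1 hv).2 (hσ v)⟩) σ.injective.injOn
  have h3 := card_erase_add_one (mem_filter.2 ⟨subset_reg (G := G) U χ hU, h.ho⟩)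
  rw [filter_erase] at h1
  unfold ess
  omega

/-- The first closed site after `u` on the line is at odd distance. -/
def BB (σ : Equiv.Perm V) (C : Finset V) (u : V) : Prop :=
  ∃ k, (σ ^ (2 * k + 1)) u ∈ C ∧ ∀ j ≤ 2 * k, (σ ^ j) u ∉ C

open Classical in
lemma out_card {f : V → V} (hf : Function.Injective f) (ha : ∀ v, G.Adj v (f v)) (W : Finset V) :
    (W.filter fun u => f u ∉ W).card ≤ (supp G W \ W).card :=
  card_le_card_of_injOn f (fun u hu => by
    obtain ⟨h1, h2⟩ := mem_filter.1 (mem_coe.1 hu)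
    exact mem_coe.2 (mem_sdiff.2 ⟨mem_supp.2 (Or.inr ⟨u, h1, ha u⟩), h2⟩)) hf.injOn

open Classical in
lemma class_card (hχ : ∀ a b, G.Adj a b → (χ a ↔ ¬ χ b)) (hσ : ∀ v, G.Adj v (σ v)) (W : Finset V) :
    (W.filter fun u => ¬ χ u).card ≤ (W.filter χ).card + (supp G W \ W).card := by
  refine le_trans (card_le_card_of_injOn σ (fun u hu => ?_) σ.injective.injOn) (card_union_le _ _)
  obtain ⟨h1, h2⟩ := mem_filter.1 (mem_coe.1 hu)
  refine mem_coe.2 (mem_union.2 ?_)
  by_cases h3 : σ u ∈ W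
  · exact Or.inl (mem_filter.2 ⟨h3, not_not.1 fun h4 => h2 ((hχ _ _ (hσ u)).2 h4)⟩)
  · exact Or.inr (mem_sdiff.2 ⟨mem_supp.2 (Or.inr ⟨u, h1, hσ u⟩), h3⟩)

open Classical in
lemma line_match (hχ : ∀ a b, G.Adj a b → (χ a ↔ ¬ χ b)) (hσ : ∀ v, G.Adj v (σ v))
    (W C : Finset V) : ((reg G W χ \ C).filter fun u => ¬ χ u).card ≤ nu G (reg G W χ \ C) +
      3 * (supp G W \ W).card +
        ((W.filter fun u => ¬ χ u).filter fun u => σ.symm u ∈ C ∧ BB σ C u).card := by
  have hσ' : ∀ v, G.Adj v (σ.symm v) := fun v => by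
    have := (hσ (σ.symm v)).symm
    rwa [σ.apply_symm_apply] at this
  set T := W.filter fun u => ¬ χ u ∧ u ∉ C ∧ σ u ∈ W ∧ σ.symm u ∈ W ∧
    ¬ (σ.symm u ∈ C ∧ BB σ C u) with hT
  have h1 := card_le_nu (neg_proper hχ) (K := reg G W χ \ C) (T := T)
    (f := fun u => if BB σ C u then σ.symm u else σ u) (fun u hu => by
      obtain ⟨a, b, c, d, e, f⟩ := mem_filter.1 hu
      refine ⟨mem_sdiff.2 ⟨subset_reg W χ a, c⟩, b, ?_⟩
      split_ifs with hB
      · exact ⟨hσ' u, mem_sdiff.2 ⟨subset_reg W χ e, fun h => f ⟨h, hB⟩⟩⟩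
      · refine ⟨hσ u, mem_sdiff.2 ⟨subset_reg W χ d, fun h => hB ⟨0, by simpa using h, ?_⟩⟩⟩
        intro j hj
        obtain rfl : j = 0 := by omega
        simpa using c) (by
      have key : ∀ u ∈ T, ∀ w ∈ T, BB σ C u → σ.symm u = σ w → BB σ C w := by
        intro u hu w hw hB e
        obtain ⟨-, -, -, -, -, f⟩ := mem_filter.1 hu
        obtain ⟨-, -, c, -⟩ := mem_filter.1 hw
        have e2 : ∀ j, (σ ^ (j + 2)) w = (σ ^ j) u := fun j => by
          rw [pow_add, Equiv.Perm.mul_apply, sq, Equiv.Perm.mul_apply, ← e, σ.apply_symm_apply]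
        obtain ⟨k, h1, h2⟩ := id hB
        refine ⟨k + 1, by rwa [show 2 * (k + 1) + 1 = 2 * k + 1 + 2 by ring, e2], fun j hj => ?_⟩
        match j with
        | 0 => simpa using c
        | 1 => exact fun h3 => f ⟨by rwa [e, ← pow_one σ], hB⟩
        | j + 2 => exact e2 j ▸ h2 j (by omega)
      intro u hu w hw e
      simp only at e
      split_ifs at e with h1 h2 h2
      · exact σ.symm.injective e
      · exact absurd (key u hu w hw h1 e) h2
      · exact absurd (key w hw u hu h2 e.symm) h1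
      · exact σ.injective e)
  have h2 := out_card σ.injective hσ W
  have h3 := out_card σ.symm.injective hσ' W
  have h4 : ((reg G W χ \ C).filter fun u => ¬ χ u) ⊆ T ∪ ((supp G W \ W) ∪
      ((W.filter fun u => σ u ∉ W) ∪ ((W.filter fun u => σ.symm u ∉ W) ∪
        ((W.filter fun u => ¬ χ u).filter fun u => σ.symm u ∈ C ∧ BB σ C u)))) := by
    intro x hx
    have := @reg_subset_supp _ _ G _ W χ x
    simp only [hT, mem_union, mem_filter, mem_sdiff] at hx ⊢
    tauto
  have h5 := (card_le_card h4).trans ((card_union_le _ _).trans (add_le_add h1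
    ((card_union_le _ _).trans (add_le_add le_rfl ((card_union_le _ _).trans
      (add_le_add h2 ((card_union_le _ _).trans (add_le_add h3 le_rfl)))))))) 
  omega

omit [G.LocallyFinite] in
open Classical in
lemma prob_bad (hχ : ∀ a b, G.Adj a b → (χ a ↔ ¬ χ b)) (hσ : ∀ v, G.Adj v (σ v))
    (hinf : ∀ k v, (σ ^ (k + 1)) v ≠ v) {r : V → ℝ} {p q : ℝ} (h0 : ∀ u, 0 ≤ r u)
    (h1 : ∀ u, r u ≤ 1) (hq : ∀ u, χ u → r u ≤ q) (hp : ∀ u, ¬ χ u → r u = p) {S : Finset V}
    {u : V} (hu : ¬ χ u) (L : ℕ) (hS : ∀ j ≤ 2 * L + 1, (σ ^ j) (σ.symm u) ∈ S) :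
    Ex S r (fun C => if σ.symm u ∈ C ∧ BB σ C u then 1 else 0) ≤ q * (L * q + (1 - p) ^ L) := by
  set w := σ.symm u with hw
  have e : ∀ j, (σ ^ j) u = (σ ^ (j + 1)) w := fun j => by
    rw [pow_succ, Equiv.Perm.mul_apply, hw, σ.apply_symm_apply]
  have hc : ∀ j, (χ ((σ ^ (2 * j)) w)) ∧ ¬ χ ((σ ^ (2 * j + 1)) w) := by
    have st : ∀ j, χ ((σ ^ j) w) ↔ ¬ χ ((σ ^ (j + 1)) w) := fun j => by
      rw [pow_succ', Equiv.Perm.mul_apply]
      exact hχ _ _ (hσ _)
    intro j
    induction j with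
    | zero =>
      have h2 : ¬ χ ((σ ^ (0 + 1)) w) := e 0 ▸ by simpa using hu
      exact ⟨(st 0).2 h2, h2⟩
    | succ j ih =>
      have h2 : χ ((σ ^ (2 * (j + 1))) w) := not_not.1 fun h3 => ih.2 ((st _).2 h3)
      exact ⟨h2, (st _).1 h2⟩
  have hw0 : χ w := by simpa using (hc 0).1
  have hwS : w ∈ S := by simpa using hS 0 (Nat.zero_le _)
  have hq0 : 0 ≤ q := (h0 w).trans (hq w hw0)
  have inj : Function.Injective fun j : ℕ => (σ ^ j) w := by
    refine Function.Injective.of_lt_imp_ne fun i j hij h2 => ?_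
    obtain ⟨k, rfl⟩ := Nat.exists_eq_add_of_lt hij
    refine hinf k ((σ ^ i) w) ?_
    rw [← Equiv.Perm.mul_apply, ← pow_add, show k + 1 + i = i + k + 1 by ring]
    exact h2.symm
  set B := (range L).image fun j => (σ ^ (2 * (j + 1) + 1)) w with hB
  have h2 := Ex_mono (S := S) h0 h1
    (f := fun C => if w ∈ C ∧ BB σ C u then 1 else 0)
    (g := fun C => (∑ k ∈ range L, if {w, (σ ^ (2 * (k + 1))) w} ⊆ C ∧ Disjoint ∅ C then 1 else 0) +
      if {w} ⊆ C ∧ Disjoint B C then 1 else 0) fun C _ => by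
      have p1 : ∀ k, (0 : ℝ) ≤ if {w, (σ ^ (2 * (k + 1))) w} ⊆ C ∧ Disjoint ∅ C then 1 else 0 :=
        fun k => by split_ifs <;> norm_num
      have p2 : (0 : ℝ) ≤ if {w} ⊆ C ∧ Disjoint B C then 1 else 0 := by split_ifs <;> norm_num
      have p3 := sum_nonneg (s := range L) fun k _ => p1 k
      by_cases h3 : w ∈ C ∧ BB σ C u
      · rw [if_pos h3]
        obtain ⟨h4, k, h5, h6⟩ := h3
        rcases lt_or_ge k L with h7 | h7
        · have h8 := single_le_sum (s := range L) (fun k _ => p1 k) (mem_range.2 h7)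
          rw [if_pos ⟨insert_subset h4 (singleton_subset_iff.2 (by rwa [e] at h5)),
            disjoint_empty_left C⟩] at h8
          linarith
        · rw [if_pos ⟨singleton_subset_iff.2 h4, disjoint_left.2 fun x hx => by
            obtain ⟨j, hj, rfl⟩ := mem_image.1 hx
            have := mem_range.1 hj
            exact e _ ▸ h6 (2 * (j + 1)) (by omega)⟩]
          linarith
      · rw [if_neg h3]
        linarith
  refine h2.trans ?_
  rw [Ex_add, Ex_sum, mul_add]
  refine add_le_add ((sum_le_card_nsmul _ _ (q * q) fun k hk => ?_).trans (le_of_eq ?_)) ?_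
  · have := mem_range.1 hk
    rw [Ex_cyl r (by
      rw [union_empty]
      exact insert_subset hwS (singleton_subset_iff.2 (hS _ (by omega)))) (disjoint_empty_right _),
      prod_empty, mul_one, prod_pair (b := (σ ^ (2 * (k + 1))) w) fun h3 => hinf (2 * k + 1) w h3.symm]
    exact mul_le_mul (hq w hw0) (hq _ (hc _).1) (h0 _) hq0
  · rw [card_range, nsmul_eq_mul]
    ring
  · rw [Ex_cyl r (union_subset (singleton_subset_iff.2 hwS) fun x hx => by
      obtain ⟨j, hj, rfl⟩ := mem_image.1 hx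
      have := mem_range.1 hj
      exact hS _ (by omega)) (disjoint_singleton_left.2 fun hx => by
      obtain ⟨j, -, h3⟩ := mem_image.1 hx
      exact hinf _ w h3), prod_singleton, hB, prod_image fun i _ j _ h3 => by
        have := inj h3
        omega, prod_congr rfl fun j _ => by rw [hp _ (hc _).2], prod_const, card_range]
    exact mul_le_mul_of_nonneg_right (hq w hw0) (pow_nonneg (by
      rw [← hp u hu]
      linarith [h1 u]) L)

theorem St.even_win (h : St G χ o τ) (hF : Fol G χ) (hσ : ∀ v, G.Adj v (σ v))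
    (hinf : ∀ k v, (σ ^ (k + 1)) v ≠ v) {p : ℝ} (hp : 0 < p) (hp' : p ≤ 1) :
    G2 G χ o (pq χ 0 p) ≤ 0 := by
  classical
  refine le_of_forall_pos_le_add fun η hη => ?_
  obtain ⟨L, hL⟩ := exists_pow_lt_of_lt_one (show 0 < η / 7 by positivity)
    (show 1 - p < 1 by linarith)
  set q := min 1 (η / 7 / (L + 1)) with hqd
  have hq0 : 0 < q := lt_min one_pos (by positivity)
  have hq1 : q ≤ 1 := min_le_left _ _
  have hq2 : L * q ≤ η / 7 := by
    have h1 : q ≤ η / 7 / (L + 1) := min_le_right _ _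
    rw [le_div_iff₀ (by positivity)] at h1
    linarith
  obtain ⟨W, hW⟩ := hF (min 1 (η / 7 * q)) (lt_min one_pos (by positivity))
  set S := supp G W ∪ (W ×ˢ range (2 * L + 2)).image fun z => (σ ^ z.2) (σ.symm z.1) with hS
  have h1 := (h.tele h.cl le_rfl hq0.le hq1 hp.le hp' (S := S) (W := W) subset_union_left).1 _
    (G2_le (pq_nonneg le_rfl hp.le) (pq_le zero_le_one hp'))
  set r : V → ℝ := fun u => if u ∈ W.filter χ then q else pq χ 0 p u with hr
  have r0 : ∀ u, pq χ 0 p u ≤ r u := fun u => by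
    simp only [hr]
    split_ifs with h2
    · rw [pq_pos _ _ (mem_filter.1 h2).2]
      exact hq0.le
    · exact le_rfl
  have r0' : ∀ u, 0 ≤ r u := fun u => (pq_nonneg le_rfl hp.le u).trans (r0 u)
  have r1 : ∀ u, r u ≤ 1 := fun u => by
    simp only [hr]
    split_ifs
    exacts [hq1, pq_le zero_le_one hp' u]
  have r2 : ∀ u, ¬ χ u → pq χ 0 p u = r u := fun u hu =>
    (if_neg fun h2 => hu (mem_filter.1 h2).2).symm
  have r3 : ∀ u, χ u → r u ≤ q := fun u hu => by
    simp only [hr, pq_pos _ _ hu]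
    split_ifs
    exacts [le_rfl, hq0.le]
  have h2 := Ex_mono (S := S) (pq_nonneg (χ := χ) le_rfl hp.le) (pq_le zero_le_one hp')
    (f := fun C => (nu G (reg G W χ \ C) : ℝ))
    (g := fun C => (((reg G W χ \ C).filter fun u => ¬ χ u).card : ℝ))
    fun C _ => Nat.cast_le.2 ((nu_le_class (neg_proper h.pr) _).trans
      (card_le_card fun x hx => by simpa using hx))
  have h3 := Ex_tilt (S := S) (pq_nonneg le_rfl hp.le) r1 r0 r2
    (f := fun C => (((reg G W χ \ C).filter fun u => ¬ χ u).card : ℝ)) fun w hw C => by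
      refine Nat.cast_le.2 (card_le_card fun x hx => ?_)
      have h4 : x ≠ w := fun e => (mem_filter.1 hx).2 (e ▸ hw)
      simp only [mem_filter, mem_sdiff, mem_erase, mem_insert] at hx ⊢
      tauto
  have h4 := Ex_mono (S := S) r0' r1
    (f := fun C => (((reg G W χ \ C).filter fun u => ¬ χ u).card : ℝ))
    (g := fun C => (nu G (reg G W χ \ C) + (3 * (supp G W \ W).card : ℝ)) +
      ∑ u ∈ W.filter fun u => ¬ χ u, if σ.symm u ∈ C ∧ BB σ C u then 1 else 0) fun C _ => by
      rw [sum_boole]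
      exact_mod_cast line_match h.pr hσ W C
  rw [Ex_add, Ex_add, Ex_const, Ex_sum] at h4
  have h5 := sum_le_card_nsmul (W.filter fun u => ¬ χ u) _ _ fun u hu =>
    prob_bad h.pr hσ hinf r0' r1 r3 (fun u hu => by rw [← r2 u hu, pq_neg _ _ hu]) (S := S)
      (mem_filter.1 hu).2 L fun j hj => mem_union_right _ (mem_image.2
        ⟨(u, j), mem_product.2 ⟨(mem_filter.1 hu).1, mem_range.2 (by omega)⟩, rfl⟩)
  have h6 : ((W.filter fun u => ¬ χ u).card : ℝ) ≤ (W.filter χ).card + (supp G W \ W).card := by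
    exact_mod_cast class_card h.pr hσ W
  rw [nsmul_eq_mul] at h5
  have h7 := hW.le.trans (mul_le_mul_of_nonneg_right (min_le_left _ _) (Nat.cast_nonneg _))
  have h8 := hW.le.trans (mul_le_mul_of_nonneg_right (min_le_right _ _) (Nat.cast_nonneg _))
  have h9 : (0 : ℝ) < (W.filter χ).card := by
    by_contra h10
    rw [le_antisymm (not_lt.1 h10) (Nat.cast_nonneg _), mul_zero] at hW
    exact absurd hW (not_lt.2 (Nat.cast_nonneg _))
  have h10 : q * (L * q + (1 - p) ^ L) ≤ q * (2 * (η / 7)) :=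
    mul_le_mul_of_nonneg_left (by linarith) hq0.le
  have h11 := mul_le_mul (h6.trans (add_le_add le_rfl h7)) h10 (by
    have := pow_nonneg (sub_nonneg.2 hp') L
    positivity) (by positivity)
  refine le_of_mul_le_mul_left ?_ (mul_pos h9 hq0)
  linarith

end Pool.Agent.P.MP_985e29_pr.Two
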