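import Pool.Agent.P.MP_985e29_pr.Two.AW2
import Pool.Agent.P.MP_985e29_pr.Two.Zero

open Finset MeasureTheory ProbabilityTheory

namespace Pool.Agent.P.MP_985e29_pr.Two

variable {V : Type} [DecidableEq V] {χ : V → Prop}

open Classical in
lemma prod_le_Ex (p q : unitInterval) (S : Finset V) (f : Finset V → ℝ) (hf : ∀ C, 0 ≤ f C)
    (E : Set (Set V × Set V))
    (hE : ∀ z ∈ E, 1 ≤ f (S.filter fun x => (χ x ∧ x ∈ z.1) ∨ (¬ χ x ∧ x ∈ z.2))) :
    (setBer((Set.univ : Set V), p)).prod (setBer((Set.univ : Set V), q)) E ≤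
      ENNReal.ofReal (Ex S (pq χ p q) f) := by
  have hw := wt_nonneg (S := S) (pq_nonneg (χ := χ) p.2.1 q.2.1) (pq_le p.2.2 q.2.2)
  have h1 : E ⊆ ⋃ C ∈ S.powerset.filter fun C => 1 ≤ f C,
      {X | ∀ v ∈ S.filter χ, v ∈ X ↔ v ∈ C.filter χ} ×ˢ
        {X | ∀ v ∈ S.filter fun u => ¬ χ u, v ∈ X ↔ v ∈ C.filter fun u => ¬ χ u} := by
    intro z hz
    refine Set.mem_iUnion₂.2 ⟨_, mem_filter.mpr ⟨mem_powerset.mpr (filter_subset _ _), hE z hz⟩,
      fun v hv => ?_, fun v hv => ?_⟩ <;>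
    · simp only [mem_filter] at hv ⊢
      tauto
  refine (measure_mono h1).trans ((measure_biUnion_finset_le _ _).trans ?_)
  have h2 : ∀ C ∈ S.powerset.filter fun C => 1 ≤ f C,
      (setBer((Set.univ : Set V), p)).prod (setBer((Set.univ : Set V), q))
        ({X | ∀ v ∈ S.filter χ, v ∈ X ↔ v ∈ C.filter χ} ×ˢ
        {X | ∀ v ∈ S.filter fun u => ¬ χ u, v ∈ X ↔ v ∈ C.filter fun u => ¬ χ u}) =
        ENNReal.ofReal (wt S (pq χ p q) C) := by
    intro C hC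
    have h3 := mem_powerset.1 (mem_filter.1 hC).1
    rw [Measure.prod_prod, setBer_cyl p _ _ (filter_subset_filter _ h3),
      setBer_cyl q _ _ (filter_subset_filter _ h3),
      ← ENNReal.ofReal_mul (wt_nonneg (fun _ => p.2.1) (fun _ => p.2.2) _)]
    congr 1
    have e : ∀ (P : V → Prop) [DecidablePred P], S.filter P \ C.filter P = (S \ C).filter P := by
      intro P _
      ext x
      simp only [mem_filter, mem_sdiff]
      tauto
    simp only [wt, pq, e]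
    rw [prod_ite, prod_congr rfl fun x _ => apply_ite (fun t : ℝ => 1 - t) (χ x) p q, prod_ite]
    ring
  rw [sum_congr rfl h2, ← ENNReal.ofReal_sum_of_nonneg fun C _ => hw C]
  refine ENNReal.ofReal_le_ofReal ((sum_le_sum fun C hC => le_mul_of_one_le_right (hw C)
    (mem_filter.1 hC).2).trans (sum_le_sum_of_subset_of_nonneg (filter_subset _ _)
      fun C _ _ => mul_nonneg (hw C) (hf C)))

open Classical in
lemma null_of (p q : unitInterval) (E : Set (Set V × Set V))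
    (h : ∀ δ : ℝ, 0 < δ → ∃ (S : Finset V) (f : Finset V → ℝ), (∀ C, 0 ≤ f C) ∧
      Ex S (pq χ p q) f < δ ∧
        ∀ z ∈ E, 1 ≤ f (S.filter fun x => (χ x ∧ x ∈ z.1) ∨ (¬ χ x ∧ x ∈ z.2))) :
    (setBer((Set.univ : Set V), p)).prod (setBer((Set.univ : Set V), q)) E = 0 := by
  refine le_antisymm (ENNReal.le_of_forall_pos_le_add fun δ hδ _ => ?_) bot_le
  obtain ⟨S, f, h1, h2, h3⟩ := h δ hδ
  refine (prod_le_Ex p q S f h1 E h3).trans ?_
  rw [zero_add, ← ENNReal.ofReal_coe_nnreal]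
  exact ENNReal.ofReal_le_ofReal h2.le

variable {G : SimpleGraph V} [G.LocallyFinite] {H : SimpleGraph V} {X : Set V} {o : V}

omit [DecidableEq V] in
lemma second_of_isolated (h : ∀ y, ¬ H.Adj o y) : SecondWins H o := by
  classical
  refine ⟨fun P => if h : ∃ y, Legal H P y then h.choose else P.1, fun P hP => ?_,
    fun σ _ => ⟨0, Even.zero, fun ⟨y, hy, _⟩ => h y hy, by simp⟩⟩
  simp only [dif_pos hP]
  exact hP.choose_spec

lemma wins_of {P : V → Prop} (hP : ∀ a b, G.Adj a b → (P a ↔ ¬ P b))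
    (hH : ∀ a b, H.Adj a b ↔ G.Adj a b ∧ a ∉ X ∧ b ∉ X) (h0 : o ∉ X) {U D : Finset V} (hU : o ∈ U)
    (hD : ∀ x, x ∈ D ↔ x ∈ supp G U ∧ x ∈ X) :
    (¬ P o → ess G (reg G U P \ D.erase o) o → FirstWins H o) ∧
      (P o → ¬ ess G (reg G U P \ D.erase o) o → SecondWins H o) := by
  have hopen : ∀ x ∈ reg G U P \ D.erase o, x ∉ X := by
    intro x hx hxX
    obtain ⟨hx1, hx2⟩ := mem_sdiff.mp hx
    exact hx2 (mem_erase.mpr ⟨fun e => h0 (e ▸ hxX), (hD x).2 ⟨reg_subset_supp U P hx1, hxX⟩⟩)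
  have hGH : ∀ a ∈ reg G U P \ D.erase o, ∀ b ∈ reg G U P \ D.erase o, G.Adj a b → H.Adj a b :=
    fun a ha b hb h => (hH a b).2 ⟨h, hopen a ha, hopen b hb⟩
  have hHG : ∀ a b, H.Adj a b → G.Adj a b := fun a b h => ((hH a b).1 h).1
  have hcl : ∀ u ∈ reg G U P \ D.erase o, P u → ∀ w, H.Adj u w → w ∈ reg G U P \ D.erase o :=
    fun u hu hPu w h => mem_sdiff.mpr ⟨reg_closed hP (mem_sdiff.mp hu).1 hPu (hHG _ _ h),
      fun hw => ((hH _ _).1 h).2.2 ((hD w).1 (mem_of_mem_erase hw)).2⟩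
  exact ⟨firstWins_of_ess hP hGH hHG hcl,
    secondWins_of_not_ess hP hGH hHG hcl (mem_sdiff.mpr ⟨subset_reg U _ hU, notMem_erase _ _⟩)⟩

lemma dind_of_draw (hχ : ∀ a b, G.Adj a b → (χ a ↔ ¬ χ b))
    (hH : ∀ a b, H.Adj a b ↔ G.Adj a b ∧ a ∉ X ∧ b ∉ X) (h1 : ¬ FirstWins H o)
    (h2 : ¬ SecondWins H o) {U D : Finset V} (hU : o ∈ U)
    (hD : ∀ x, x ∈ D ↔ x ∈ supp G U ∧ x ∈ X) : 1 ≤ dind G χ U o D := by
  have h0 : o ∉ X := fun h => h2 (second_of_isolated fun y hy => ((hH _ _).1 hy).2.1 h)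
  exact (if_pos ⟨not_not.1 fun he => h2 ((wins_of (same_proper hχ o) hH h0 hU hD).2 Iff.rfl he),
    fun he => h1 ((wins_of (opp_proper hχ o) hH h0 hU hD).1 (by simp) he)⟩).ge

omit [DecidableEq V] in
lemma pq_swap (a b : ℝ) : pq (fun u => ¬ χ u) b a = pq χ a b := by
  funext u
  by_cases h : χ u
  · rw [pq_pos _ _ h, pq_neg (χ := fun u => ¬ χ u) _ _ (not_not.2 h)]
  · rw [pq_neg _ _ h, pq_pos (χ := fun u => ¬ χ u) _ _ h]

lemma small_swap {r : V → ℝ} (h : Small G (fun u => ¬ χ u) o r) : Small G χ o r := by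
  have e : ∀ U, dind G (fun u => ¬ χ u) U o = dind G χ U o := fun U => by
    funext C
    unfold dind Drawish
    rw [reg_congr U (Q := fun u => χ u ↔ χ o) fun u => not_iff_not,
      reg_congr U (P := fun u => ¬ (¬ χ u ↔ ¬ χ o)) (Q := fun u => ¬ (χ u ↔ χ o))
        fun u => not_congr not_iff_not]
  simpa only [Small, e] using h

/-- The standing assumptions on the graph. -/
structure Am (G : SimpleGraph V) [G.LocallyFinite] (χ : V → Prop) : Prop where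
  pr : ∀ a b, G.Adj a b → (χ a ↔ ¬ χ b)
  s1 : ∀ o, χ o → ∃ τ, St G χ o τ
  s2 : ∀ o, ¬ χ o → ∃ τ, St G (fun u => ¬ χ u) o τ
  f1 : Fol G χ
  f2 : Fol G fun u => ¬ χ u
  ln : ∃ σ : Equiv.Perm V, (∀ v, G.Adj v (σ v)) ∧ ∀ k v, (σ ^ (k + 1)) v ≠ v

lemma Am.swap (h : Am G χ) : Am G fun u => ¬ χ u where
  pr := neg_proper h.pr
  s1 := h.s2
  s2 o ho := by simpa only [not_not] using h.s1 o (not_not.1 ho)
  f1 := h.f2
  f2 := by simpa only [not_not] using h.f1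
  ln := h.ln

lemma Am.odd (h : Am G χ) {a : ℝ} (ha : 0 < a) (ha' : a ≤ 1) (ho : χ o) :
    1 ≤ G1 G χ o (pq χ a 0) := by
  obtain ⟨τ, hτ⟩ := h.s1 o ho
  obtain ⟨σ, hσ, -⟩ := h.ln
  exact hτ.odd_win h.f1 hσ ha ha'

lemma Am.even (h : Am G χ) {a : ℝ} (ha : 0 < a) (ha' : a ≤ 1) (ho : ¬ χ o) :
    G2 G (fun u => ¬ χ u) o (pq χ a 0) ≤ 0 := by
  obtain ⟨τ, hτ⟩ := h.s2 o ho
  obtain ⟨σ, hσ, hσ'⟩ := h.ln
  rw [← pq_swap]
  exact hτ.even_win h.f2 hσ hσ' ha ha'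

lemma Am.zero (h : Am G χ) {a : ℝ} (ha : 0 < a) (ha' : a ≤ 1) (o : V) :
    Small G χ o (pq χ a 0) := by
  have h0 := pq_nonneg (χ := χ) ha.le le_rfl
  have h1 := pq_le (χ := χ) ha' zero_le_one
  by_cases ho : χ o
  · exact small_of h.pr ho h0 h1 (((G2_le h0 h1 _ (mem_singleton_self o)).trans
      (gU_le h0 h1 _)).trans (h.odd ha ha' ho))
  · exact small_swap (small_of (neg_proper h.pr) ho h0 h1 ((h.even ha ha' ho).trans
      ((gU_nonneg h0 h1 _).trans (le_G1 h0 h1 _ (mem_singleton_self o)))))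

lemma all_of_class (hχ : ∀ a b, G.Adj a b → (χ a ↔ ¬ χ b)) {r : V → ℝ} (h0 : ∀ u, 0 ≤ r u)
    (h1 : ∀ u, r u ≤ 1) (hr : ∀ u, ¬ χ u → 0 < r u) (h : ∀ u, χ u → Small G χ u r) (o : V) :
    Small G χ o r := by
  by_cases ho : χ o
  · exact h o ho
  · exact small_nbr hχ h0 h1 (hr o ho) fun u hu => h u (not_not.1 fun h2 => ho ((hχ _ _ hu).2 h2))

lemma small_one (hχ : ∀ a b, G.Adj a b → (χ a ↔ ¬ χ b)) {a : ℝ} (ha : 0 ≤ a) (ha' : a ≤ 1)
    (o : V) : Small G χ o (pq χ a 1) := by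
  refine all_of_class hχ (pq_nonneg ha zero_le_one) (pq_le ha' le_rfl)
    (fun u hu => by rw [pq_neg _ _ hu]; exact one_pos) (fun u hu δ hδ => ?_) o
  refine ⟨{u}, mem_singleton_self u, lt_of_eq_of_lt (sum_eq_zero fun C _ => ?_) hδ⟩
  by_cases hD : Drawish G χ {u} u C
  · obtain ⟨w, hw, hadj, -⟩ := (ess_iff hD.1.mem).1 hD.1
    obtain ⟨h1, h2⟩ := mem_erase.1 hw
    obtain ⟨h3, h4⟩ := mem_sdiff.1 h2
    rw [wt, prod_eq_zero (mem_sdiff.2 ⟨reg_subset_supp _ _ h3, fun h5 => h4 (mem_erase.2 ⟨h1, h5⟩)⟩)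
      (by rw [pq_neg _ _ ((hχ _ _ hadj).1 hu), sub_self]), mul_zero, zero_mul]
  · rw [show dind G χ {u} u C = 0 from if_neg hD, mul_zero]

theorem Am.plane (h : Am G χ) (hi : Iso G χ) {a b : ℝ} (ha : 0 ≤ a) (ha' : a ≤ 1) (hb : 0 ≤ b)
    (hb' : b ≤ 1) (hab : 0 < a ∨ 0 < b) (o : V) : Small G χ o (pq χ a b) := by
  rcases hb.eq_or_lt with rfl | hb0
  · exact h.zero (hab.resolve_right (lt_irrefl _)) ha' o
  rcases ha.eq_or_lt with rfl | ha0
  · rw [← pq_swap]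
    exact small_swap (h.swap.zero hb0 hb' o)
  rcases hb'.eq_or_lt with rfl | hb1
  · exact small_one h.pr ha ha' o
  rcases ha'.eq_or_lt with rfl | ha1
  · rw [← pq_swap]
    exact small_swap (small_one h.swap.pr hb hb' o)
  refine all_of_class h.pr (pq_nonneg ha hb) (pq_le ha' hb')
    (fun u hu => by rwa [pq_neg _ _ hu]) (fun u hu => ?_) o
  obtain ⟨τ, hτ⟩ := h.s1 u hu
  exact hτ.small hi ha0 ha1 hb0 hb1

theorem Am.countable [Countable V] (h : Am G χ) {b : ℝ} (hb : 0 ≤ b) (hb' : b ≤ 1) :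
    {a : unitInterval | ¬ ∀ o, Small G χ o (pq χ a b)}.Countable := by
  rcases hb.eq_or_lt with rfl | hb0
  · refine (Set.countable_singleton 0).mono fun a ha => ?_
    by_contra h1
    exact ha (h.zero (lt_of_le_of_ne a.2.1 fun e => h1 (Subtype.ext e.symm)) a.2.2)
  · refine (Set.countable_iUnion fun o : {o // χ o} =>
      (h.s1 o.1 o.2).choose_spec.countable h.f1 hb hb').mono fun a ha => ?_
    by_contra h1
    simp only [Set.mem_iUnion, Set.mem_ofPred_eq, not_exists, not_not] at h1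
    exact ha (all_of_class h.pr (pq_nonneg a.2.1 hb) (pq_le a.2.2 hb')
      (fun u hu => by rwa [pq_neg _ _ hu]) fun u hu => h1 ⟨u, hu⟩)

end Pool.Agent.P.MP_985e29_pr.Two
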