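import Pool.Agent.P.MP_985e29_pr.Two.Gen
import Pool.Agent.P.MP_985e29_pr.Two.Defs

open Finset MeasureTheory ProbabilityTheory

namespace Pool.Agent.P.MP_985e29_pr.Two

variable {d : ℕ} {S : Finset (Fin d → ℤ)} {l : (Fin d → ℤ) →+ ℤ}

lemma cay_adj {x y : Fin d → ℤ} : (board S ∅).Adj x y ↔ x ≠ y ∧ (y - x ∈ S ∨ x - y ∈ S) := by
  simp [board]

lemma board_adj {C : Set (Fin d → ℤ)} (x y : Fin d → ℤ) :
    (board S C).Adj x y ↔ (board S ∅).Adj x y ∧ x ∉ C ∧ y ∉ C := by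
  simp only [board, SimpleGraph.fromRel_adj, Set.mem_empty_iff_false]
  tauto

/-- Every site has finitely many neighbours. -/
@[instance_reducible] noncomputable def cayLF (S : Finset (Fin d → ℤ)) :
    (board S ∅).LocallyFinite := fun x =>
  Set.Finite.fintype (((S.image (x + ·) ∪ S.image (x - ·)).finite_toSet).subset fun y hy => by
    rcases (cay_adj.1 hy).2 with h | h
    · exact mem_coe.2 (mem_union_left _ (mem_image.2 ⟨_, h, by simp⟩))
    · exact mem_coe.2 (mem_union_right _ (mem_image.2 ⟨_, h, by simp⟩)))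

attribute [local instance] cayLF

lemma cay_proper (hS : ∀ s ∈ S, Odd (l s)) (a b : Fin d → ℤ) (h : (board S ∅).Adj a b) :
    Odd (l a) ↔ ¬ Odd (l b) := by
  rcases (cay_adj.1 h).2 with h1 | h1 <;>
  · have := hS _ h1
    rw [map_sub] at this
    grind

/-- Translation. -/
def sh (S : Finset (Fin d → ℤ)) (v : Fin d → ℤ) : board S ∅ ≃g board S ∅ where
  toEquiv := Equiv.addRight v
  map_rel_iff' := by simp [cay_adj]

lemma sh_apply (v x : Fin d → ℤ) : sh S v x = x + v := rfl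

lemma box (m : ℕ) (S : Finset (Fin (m + 1) → ℤ)) : ∃ K : ℝ, 0 ≤ K ∧ ∀ n : ℕ, 1 ≤ n →
    ∃ W : Finset (Fin (m + 1) → ℤ), (W.card : ℝ) = n ^ (m + 1) ∧
      ((supp (board S ∅) W \ W).card : ℝ) ≤ K * n ^ m := by
  obtain ⟨R, hR⟩ : ∃ R : ℕ, ∀ s ∈ S, ∀ i, (s i).natAbs ≤ R :=
    ⟨S.sup fun s => univ.sup fun i => (s i).natAbs, fun s hs i =>
      (le_sup (f := fun i => (s i).natAbs) (mem_univ i)).trans
        (le_sup (f := fun s : Fin (m + 1) → ℤ => univ.sup fun i => (s i).natAbs) hs)⟩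
  refine ⟨2 * R * (m + 1 : ℕ) * (1 + 2 * R) ^ m, by positivity, fun n hn => ?_⟩
  set W : Finset (Fin (m + 1) → ℤ) := Fintype.piFinset fun _ => Icc (1 : ℤ) n with hW
  set W' : Finset (Fin (m + 1) → ℤ) := Fintype.piFinset fun _ => Icc (1 - R : ℤ) (n + R) with hW'
  have c1 : W.card = n ^ (m + 1) := by
    simp only [hW, Fintype.card_piFinset, Int.card_Icc, prod_const, card_univ, Fintype.card_fin]
    congr 1
    omega
  have c2 : W'.card = (n + 2 * R) ^ (m + 1) := by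
    simp only [hW', Fintype.card_piFinset, Int.card_Icc, prod_const, card_univ, Fintype.card_fin]
    congr 1
    omega
  have h1 : supp (board S ∅) W ⊆ W' := by
    intro x hx
    simp only [mem_supp, hW, hW', Fintype.mem_piFinset, mem_Icc] at hx ⊢
    intro i
    rcases hx with hx | ⟨u, hu, hadj⟩
    · have := hx i
      omega
    · have := hu i
      rcases (cay_adj.1 hadj).2 with h | h <;>
      · have := hR _ h i
        rw [Pi.sub_apply] at this
        omega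
  have h2 : (supp (board S ∅) W \ W).card + W.card ≤ W'.card := by
    rw [card_sdiff_add_card, union_eq_left.mpr (subset_supp W)]
    exact card_le_card h1
  rw [c1, c2] at h2
  refine ⟨W, by exact_mod_cast c1, ?_⟩
  have h3 : ((supp (board S ∅) W \ W).card : ℝ) + (n : ℝ) ^ (m + 1) ≤ (n + 2 * R) ^ (m + 1) := by
    exact_mod_cast h2
  have hn1 : (1 : ℝ) ≤ n := by exact_mod_cast hn
  have hR0 : (0 : ℝ) ≤ R := Nat.cast_nonneg R
  have h4 := (le_abs_self _).trans (abs_pow_sub_pow_le ((n : ℝ) + 2 * R) n (m + 1))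
  rw [add_sub_cancel_left, abs_of_nonneg (by positivity), abs_of_nonneg (by positivity),
    abs_of_nonneg (by positivity), max_eq_left (by linarith), Nat.add_sub_cancel] at h4
  have h5 : ((n : ℝ) + 2 * R) ^ m ≤ (1 + 2 * R) ^ m * n ^ m := by
    rw [← mul_pow]
    exact pow_le_pow_left₀ (by positivity) (by nlinarith) m
  have h6 := mul_le_mul_of_nonneg_left h5 (show (0 : ℝ) ≤ 2 * R * (m + 1 : ℕ) by positivity)
  linarith

open Classical in
lemma box2 {m : ℕ} {S : Finset (Fin (m + 1) → ℤ)} {χ : (Fin (m + 1) → ℤ) → Prop}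
    (hχ : ∀ a b, (board S ∅).Adj a b → (χ a ↔ ¬ χ b)) {σ : Equiv.Perm (Fin (m + 1) → ℤ)}
    (hσ : ∀ v, (board S ∅).Adj v (σ v)) : ∃ K : ℝ, 0 ≤ K ∧ ∀ n : ℕ, 1 ≤ n → 2 * K ≤ n →
    ∃ W : Finset (Fin (m + 1) → ℤ), (n : ℝ) ^ (m + 1) ≤ 4 * (W.filter χ).card ∧
      ((supp (board S ∅) W \ W).card : ℝ) ≤ K * n ^ m := by
  obtain ⟨K, hK, h⟩ := box m S
  refine ⟨K, hK, fun n hn hKn => ?_⟩
  obtain ⟨W, h1, h2⟩ := h n hn
  refine ⟨W, ?_, h2⟩
  have h3 := class_card hχ hσ W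
  have h4 := card_filter_add_card_filter_not (s := W) χ
  have h5 : (W.card : ℝ) ≤ 2 * (W.filter χ).card + (supp (board S ∅) W \ W).card := by
    exact_mod_cast (by omega)
  have h6 := mul_le_mul_of_nonneg_right hKn (show (0 : ℝ) ≤ n ^ m by positivity)
  rw [pow_succ] at h1 ⊢
  linarith

lemma fol {m : ℕ} {S : Finset (Fin (m + 1) → ℤ)} {χ : (Fin (m + 1) → ℤ) → Prop}
    (hχ : ∀ a b, (board S ∅).Adj a b → (χ a ↔ ¬ χ b)) {σ : Equiv.Perm (Fin (m + 1) → ℤ)}
    (hσ : ∀ v, (board S ∅).Adj v (σ v)) : Fol (board S ∅) χ := by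
  obtain ⟨K, hK, h⟩ := box2 hχ hσ
  intro ε hε
  obtain ⟨n, hn⟩ := exists_nat_gt (1 + 2 * K + 4 * K / ε)
  have h0 : 0 ≤ 4 * K / ε := by positivity
  have hn1 : (1 : ℝ) ≤ n := by linarith
  obtain ⟨W, h1, h2⟩ := h n (by exact_mod_cast hn1) (by linarith)
  refine ⟨W, h2.trans_lt ?_⟩
  have h3 : 4 * K < n * ε := (div_lt_iff₀ hε).1 (by linarith)
  have h4 := mul_lt_mul_of_pos_right h3 (show (0 : ℝ) < n ^ m by positivity)
  have h5 := mul_le_mul_of_nonneg_left h1 hε.le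
  rw [pow_succ] at h5
  linarith

lemma iso {m : ℕ} (hm : m ≤ 1) {S : Finset (Fin (m + 1) → ℤ)} {χ : (Fin (m + 1) → ℤ) → Prop}
    (hχ : ∀ a b, (board S ∅).Adj a b → (χ a ↔ ¬ χ b)) {σ : Equiv.Perm (Fin (m + 1) → ℤ)}
    (hσ : ∀ v, (board S ∅).Adj v (σ v)) : Iso (board S ∅) χ := by
  obtain ⟨K, hK, h⟩ := box2 hχ hσ
  refine ⟨2 * K, fun N => ?_⟩
  obtain ⟨n, hn⟩ := exists_nat_gt (1 + 2 * K + 4 * N)
  have h0 : (0 : ℝ) ≤ N := Nat.cast_nonneg N
  have hn1 : (1 : ℝ) ≤ n := by linarith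
  obtain ⟨W, h1, h2⟩ := h n (by exact_mod_cast hn1) (by linarith)
  have h3 := (le_self_pow₀ hn1 (Nat.succ_ne_zero m)).trans h1
  have h4 := (pow_le_pow_right₀ hn1 (show m * 2 ≤ m + 1 by omega)).trans h1
  refine ⟨W, Nat.cast_le.1 (show (N : ℝ) ≤ _ by linarith), h2.trans ?_⟩
  rw [mul_comm 2, mul_assoc]
  refine mul_le_mul_of_nonneg_left ?_ hK
  rw [← div_le_iff₀' two_pos]
  refine Real.le_sqrt_of_sq_le ?_
  rw [pow_mul] at h4
  linarith

lemma line (hS : ∀ s ∈ S, Odd (l s)) (hne : S.Nonempty) : ∃ σ : Equiv.Perm (Fin d → ℤ),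
    (∀ v, (board S ∅).Adj v (σ v)) ∧ ∀ k v, (σ ^ (k + 1)) v ≠ v := by
  obtain ⟨s, hs⟩ := hne
  have h0 : s ≠ 0 := fun h => by simpa [h] using hS s hs
  refine ⟨Equiv.addRight s, fun v => cay_adj.2 ⟨by simpa using h0, Or.inl (by simpa using hs)⟩,
    fun k v => ?_⟩
  have e : ∀ j : ℕ, (Equiv.addRight s ^ j) v = v + j • s := fun j => by
    induction j with
    | zero => simp
    | succ j ih => rw [pow_succ', Equiv.Perm.mul_apply, ih, succ_nsmul, ← add_assoc]; rfl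
  rw [e, Ne, add_eq_left]
  exact smul_ne_zero k.succ_ne_zero h0

lemma dim (hS : ∀ s ∈ S, Odd (l s)) (hne : S.Nonempty) : ∃ m, d = m + 1 := by
  refine Nat.exists_eq_succ_of_ne_zero ?_
  rintro rfl
  obtain ⟨s, hs⟩ := hne
  have := hS s hs
  rw [Subsingleton.elim s 0, map_zero] at this
  simp at this

lemma am (hS : ∀ s ∈ S, Odd (l s)) (hne : S.Nonempty) : Am (board S ∅) fun x => Odd (l x) := by
  obtain ⟨m, rfl⟩ := dim hS hne
  obtain ⟨σ, hσ, hσ'⟩ := line hS hne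
  refine ⟨cay_proper hS, fun o ho => ⟨fun v => sh S (v - o), cay_proper hS, ho,
    fun v _ => by simp [sh_apply], fun v w hv => ?_⟩, fun o ho => ⟨fun v => sh S (v - o),
    neg_proper (cay_proper hS), ho, fun v _ => by simp [sh_apply], fun v w hv => ?_⟩,
    fol (cay_proper hS) hσ, fol (neg_proper (cay_proper hS)) hσ, σ, hσ, hσ'⟩ <;>
  · simp only [sh_apply, map_add, map_sub]
    grind

/-- Some vertex is a draw. -/
abbrev Dr (S : Finset (Fin d → ℤ)) (l : (Fin d → ℤ) →+ ℤ) :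
    Set (Set (Fin d → ℤ) × Set (Fin d → ℤ)) :=
  {z | ∃ o, ¬ FirstWins (board S (closedSet l z)) o ∧ ¬ SecondWins (board S (closedSet l z)) o}

lemma Dr_empty : Dr (∅ : Finset (Fin d → ℤ)) l = ∅ :=
  Set.eq_empty_of_forall_notMem fun _ ⟨_, _, h⟩ => h (second_of_isolated (by simp [board]))

lemma null_Dr (hS : ∀ s ∈ S, Odd (l s)) (p q : unitInterval)
    (h : ∀ o, Small (board S ∅) (fun x => Odd (l x)) o (pq (fun x => Odd (l x)) p q)) :
    (setBer((Set.univ : Set (Fin d → ℤ)), p)).prod (setBer((Set.univ : Set (Fin d → ℤ)), q))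
      (Dr S l) = 0 := by
  rw [Dr, Set.ofPred_exists]
  refine measure_iUnion_null fun o => null_of (χ := fun x => Odd (l x)) p q _ fun δ hδ => ?_
  obtain ⟨U, hU, h1⟩ := h o δ hδ
  exact ⟨_, _, dind_nonneg U o, h1, fun z hz => dind_of_draw (cay_proper hS) board_adj hz.1 hz.2 hU
    fun x => by simp only [mem_filter, closedSet, Set.mem_ofPred_eq]⟩

theorem plane (hd : d ≤ 2) (hS : ∀ s ∈ S, Odd (l s)) (p q : unitInterval) (h : 0 < p ∨ 0 < q) :
    (setBer((Set.univ : Set (Fin d → ℤ)), p)).prod (setBer((Set.univ : Set (Fin d → ℤ)), q))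
      (Dr S l) = 0 := by
  rcases S.eq_empty_or_nonempty with rfl | hne
  · rw [Dr_empty, measure_empty]
  have h1 := am hS hne
  obtain ⟨m, rfl⟩ := dim hS hne
  obtain ⟨σ, hσ, -⟩ := line hS hne
  exact null_Dr hS p q (h1.plane (iso (by omega) (cay_proper hS) hσ) p.2.1 p.2.2 q.2.1 q.2.2 h)

theorem countable (hS : ∀ s ∈ S, Odd (l s)) (q : unitInterval) :
    {p : unitInterval | 0 < (setBer((Set.univ : Set (Fin d → ℤ)), p)).prod
      (setBer((Set.univ : Set (Fin d → ℤ)), q)) (Dr S l)}.Countable := by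
  rcases S.eq_empty_or_nonempty with rfl | hne
  · simp [Dr_empty]
  exact ((am hS hne).countable q.2.1 q.2.2).mono fun p hp h => hp.ne' (null_Dr hS p q h)

theorem evenWins (hS : ∀ s ∈ S, Odd (l s)) (hne : S.Nonempty) (p : unitInterval) (hp : 0 < p) :
    ∀ᵐ z ∂(setBer((Set.univ : Set (Fin d → ℤ)), p)).prod
      (setBer((Set.univ : Set (Fin d → ℤ)), 0)), ∀ o, o ∉ closedSet l z →
        (Odd (l o) → FirstWins (board S (closedSet l z)) o) ∧
          (¬ Odd (l o) → SecondWins (board S (closedSet l z)) o) := by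
  have h1 := am hS hne
  refine ae_all_iff.2 fun o => ae_iff.2 (null_of (χ := fun x => Odd (l x)) p 0 _ fun δ hδ => ?_)
  by_cases ho : Odd (l o)
  · obtain ⟨_, ⟨U, hU, rfl⟩, h3⟩ := exists_lt_of_lt_csSup
      (Set.Nonempty.image _ ⟨{o}, mem_singleton_self o⟩) ((sub_lt_self 1 hδ).trans_le (h1.odd hp p.2.2 ho))
    refine ⟨supp (board S ∅) U, fun C => 1 - ind (board S ∅) (fun u => ¬ Odd (l u)) o U C,
      fun C => sub_nonneg.2 (ind_le _ _ _), ?_, fun z hz => ?_⟩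
    · rw [Ex_sub, Ex_const]
      exact sub_lt_comm.1 h3
    · simp only [Set.mem_ofPred_eq, Classical.not_imp] at hz
      beta_reduce
      rw [ind, if_neg fun he => hz.2 ⟨fun _ => (wins_of (neg_proper (cay_proper hS)) board_adj hz.1
        hU fun x => by simp only [mem_filter, closedSet, Set.mem_ofPred_eq]).1 (not_not.2 ho) he,
        fun h => absurd ho h⟩, sub_zero]
  · obtain ⟨_, ⟨U, hU, rfl⟩, h3⟩ := exists_lt_of_csInf_lt
      (Set.Nonempty.image _ ⟨{o}, mem_singleton_self o⟩) ((h1.even hp p.2.2 ho).trans_lt hδ)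
    refine ⟨supp (board S ∅) U, ind (board S ∅) (fun u => ¬ Odd (l u)) o U,
      ind_nonneg _ _, h3, fun z hz => ?_⟩
    simp only [Set.mem_ofPred_eq, Classical.not_imp] at hz
    rw [ind, if_pos (not_not.1 fun he => hz.2 ⟨fun h => absurd h ho, fun _ =>
      (wins_of (neg_proper (cay_proper hS)) board_adj hz.1 hU fun x => by
        simp only [mem_filter, closedSet, Set.mem_ofPred_eq]).2 ho he⟩)]

end Pool.Agent.P.MP_985e29_pr.Two
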